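import Pool.Agent.H454.QE.Glue
import Pool.Agent.H454.QE.SbP
import Pool.Agent.H468.MQ.Grp
import Pool.Agent.H468.X15S.Top

/-!
# The quadratic fields over which `X_0(15)` satisfies the rank conjecture are pseudorandom of every
# order inside almost every multiquadratic field

`E` is the modular curve `X_0(15) : y² + x y + y = x³ + x² - 10 x - 10`, and
`E_D : y² = x³ - 12987 D² x - 263466 D³` its quadratic twist by `D`.

For a finite set `P` of primes, `twists P` is the group (the multiplication is modulo squares) of the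
products `D ≡ 1, 49 mod 60` of subsets of `P`.  Its elements `D ≠ 1` correspond to the quadratic subfields
`ℚ(√D)` of the multiquadratic field `K P = ℚ(√D : D ∈ twists P)` of degree `#(twists P) ≥ 2^m / 8`, where
`m = #P`.  We call `D` *good* if `E_D(ℚ)` is finite, `Ш(E_D/ℚ)[2] = 0`, and the rank conjecture holds for
`E` over the field `ℚ(√D)` (and over `ℚ`) with both sides `0`: the `L`-function, which is the product over all
the places of `ℚ(√D)`, is entire, and its order of vanishing at `s = 1` is the rank.  (The third condition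
follows from the first two.)

All the known results about the proportion of the quadratic fields over which the rank of a curve does
not grow average over all the quadratic fields of discriminant `≤ X`.  Here everything happens
inside a *single* multiquadratic field `K P`.

The theorem: for every order `k` and every `ε > 0`, if `m` is large, then for almost all the sets `P`
of `m` primes the good `D` behave in the group `twists P` like a random set of density
`c = (1 - 1/2) (1 - 1/4) (1 - 1/8) ⋯ = 0.2887...`, up to `ε`: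
* *boxes*: for all functions `u_1, ..., u_k` of `k` elements of the group with values in `[-1, 1]` such
  that `u_i` does not depend on the `i`-th variable, the product of the `u_i` has no correlation
  with the event that `D_1 D_2 ⋯ D_k` is good.  (The supremum of this correlation is
  equivalent to Gowers' uniformity norm `U^k`.  For `k = 2` and indicator functions: for all the
  pairs of subsets `𝒜`, `ℬ` of the group the product `A B` is good for `c |𝒜| |ℬ|` of the pairs.)
* *polynomials*: for every polynomial `q` of degree `< k` over the field with two elements in the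
  coordinates `x_p(D) = 1` if `p ∣ D`, `x_p(D) = 0` if not (`p ∈ P`), the sign `(-1)^q(D)` has no
  correlation with the good `D`.  (`q = 0`: the share of the good `D` is `c`.  `k = 2`: all the
  characters of the group.)
* *patterns*: for a random `k`-tuple `(D_1, ..., D_k)` the `2^k - 1` products of the nonempty
  subfamilies (that is the quadratic subfields of `ℚ(√D_1, ..., √D_k)`) are good independently of each
  other: for every set `A` of nonempty sets of indices, exactly the products with index in `A` are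
  good with probability `c^|A| (1 - c)^(2^k - 1 - |A|)`.

Proof.  The twists of a group are far from independent: they are all functions of the `m (m - 1) / 2`
symbols of pairs of elements of `P` (and of `P` modulo `60`).  The good `D` are those for which a kernel
attached to the matrix of the symbols between the prime factors of `D` is trivial.  The patterns for
`2 k` random elements give the mean square of the frequencies for `k` elements, and the two other
properties by `k` applications of the inequality of Cauchy and Schwarz (`Pool/Agent/H454/QE/BoxN`,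
`QE/Cons`).  So one has to show that the kernels of a fixed number of products, i.e. of unions
of classes (atoms) which form an antichain, are asymptotically independent.  The events
that given vectors are in the kernels are exactly independent when the vectors are independent modulo
constants on every class (`QE/Joint`: a linear relation between the conditions would decouple,
`QE/Rel`), and relations between the kernels on a class are improbable, because the number of the
linear relations between the conditions for a minimal related family is bounded (`QE/Few`,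
`QE/PBad`).  The symbols are equidistributed by the theorem of Siegel and Walfisz and the large
sieve.  The `L`-values: `Pool/Graph/.../H757_X15`, by helper757 and their team.  The 2-Selmer groups,
`Ш[2]` and the 2-converse over number fields: `Pool/Agent/H468`, by helper468.
-/

set_option autoImplicit false

open NumberField IsDedekindDomain Filter Topology

namespace Pool.Agent.Results.MP_32c55d_nt.AllOrdersX15

open Pool.Agent.TH841.SH.D (Sha)

/-- The elliptic curve `X_0(15)`, with its global minimal equation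
`y² + x y + y = x³ + x² - 10 x - 10`. -/
def E : WeierstrassCurve ℤ := ⟨1, 1, 1, -10, -10⟩

/-- The curve given by the equation of `W` over the ring `R`. -/
abbrev base (W : WeierstrassCurve ℤ) (R : Type) [CommRing R] : WeierstrassCurve R :=
  W.map (Int.castRingHom R)

/-- The number of the affine points `(x, y)` over the ring `R`. -/
noncomputable def pts (W : WeierstrassCurve ℤ) (R : Type) [CommRing R] : ℕ :=
  Nat.card {P : R × R // (base W R).toAffine.Equation P.1 P.2}

section

variable {K : Type} [Field K] [NumberField K]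

/-- `a_v = N v + 1 - #W(k_v)`, the points over the residue field `k_v` counted with the point at
infinity. -/
noncomputable def a (W : WeierstrassCurve ℤ) (v : HeightOneSpectrum (𝓞 K)) : ℤ :=
  (Ideal.absNorm v.asIdeal : ℤ) - pts W (𝓞 K ⧸ v.asIdeal)

open Classical in
/-- The Euler factor of `L(W/K, s)` at `v` : `(1 - a_v N v^(-s) + N v^(1 - 2 s))⁻¹` if the
discriminant is a unit at `v`, and `(1 - a_v N v^(-s))⁻¹` otherwise. -/
noncomputable def factor (W : WeierstrassCurve ℤ) (s : ℂ) (v : HeightOneSpectrum (𝓞 K)) : ℂ :=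
  (1 - (a W v : ℂ) * (Ideal.absNorm v.asIdeal : ℂ) ^ (-s) +
    if ((W.Δ : ℤ) : 𝓞 K) ∈ v.asIdeal then 0 else (Ideal.absNorm v.asIdeal : ℂ) ^ (1 - 2 * s))⁻¹

end

/-- The rank conjecture holds for `E` over the number field `F ⊂ ℂ`, with both sides `0`: there is an
entire function `L` which for `Re s > 3/2` is the product of the Euler factors at all the places of `F`,
its order of vanishing at `s = 1` is the rank of `E(F)`, the rank is `0`, and `E(F)` is finite. -/
def RankConjectureZero (F : IntermediateField ℚ ℂ) [NumberField F] : Prop :=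
  ∃ L : ℂ → ℂ, Differentiable ℂ L ∧
    (∀ s : ℂ, 3 / 2 < s.re → HasProd (factor (K := F) E s) (L s)) ∧
    analyticOrderAt L 1 = ((Module.finrank ℤ (base E F).toAffine.Point : ℕ) : ℕ∞) ∧
    Module.finrank ℤ (base E F).toAffine.Point = 0 ∧ Finite (base E F).toAffine.Point

/-- The rank conjecture holds for `E` over `F` and over all its subfields, with both sides `0`. -/
def RankConjectureBelow (F : IntermediateField ℚ ℂ) : Prop :=
  ∀ F' : IntermediateField ℚ ℂ, F' ≤ F → ∃ _ : NumberField F', RankConjectureZero F'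

/-- the quadratic twist by `D` of `X_0(15)`, `y² = x³ - 12987 D² x - 263466 D³` -/
def Etw (D : ℕ) : WeierstrassCurve ℚ :=
  { a₁ := 0, a₂ := 0, a₃ := 0, a₄ := ((-12987 * (D : ℤ) ^ 2 : ℤ) : ℚ),
    a₆ := ((-263466 * (D : ℤ) ^ 3 : ℤ) : ℚ) }

/-- `E_D(ℚ)` is finite and `Ш(E_D/ℚ)` has no element of order two. -/
def RankZeroShaTwo (D : ℕ) : Prop :=
  Finite (Etw D).toAffine.Point ∧ ∀ x : Sha (Etw D), x + x = 0 → x = 0

/-- the field `ℚ(√D)` -/
noncomputable def Quad (D : ℕ) : IntermediateField ℚ ℂ :=
  IntermediateField.adjoin ℚ {z : ℂ | z ^ 2 = (D : ℂ)}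

/-- the constant `(1 - 1/2) (1 - 1/4) (1 - 1/8) ⋯ = 0.2887...` -/
noncomputable def c : ℝ := ∏' i : ℕ, (1 - (1 / 2 : ℝ) ^ (i + 1))

/-- The products `D` of the subsets of `P` with `D ≡ 1` or `49` modulo `60`. -/
def twists (P : Finset ℕ) : Finset ℕ :=
  (P.powerset.image fun S => ∏ p ∈ S, p).filter fun D => D % 60 = 1 ∨ D % 60 = 49

/-- The sets of `m` primes between `7` and `X`. -/
def primeSets (m X : ℕ) : Finset (Finset ℕ) := ((Finset.Icc 7 X).filter Nat.Prime).powersetCard m

/-- `D` is good: `E_D(ℚ)` is finite, `Ш(E_D/ℚ)[2] = 0`, and the rank conjecture holds for `E` over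
`ℚ(√D)` and over `ℚ`, with both sides `0`. -/
def Good (D : ℕ) : Prop := RankZeroShaTwo D ∧ RankConjectureBelow (Quad D)

/-- The squarefree part of `n ≠ 0`: the product of the primes which divide `n` to an odd power. -/
def core (n : ℕ) : ℕ := ∏ p ∈ n.primeFactors.filter (fun p => Odd (n.factorization p)), p

open Classical in
/-- The indicator of the good `D`. -/
noncomputable def g (D : ℕ) : ℝ := if Good D then 1 else 0

/-- The `k`-tuples of elements of the group. -/
def tuples (k : ℕ) (P : Finset ℕ) : Finset (Fin k → ℕ) :=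
  Fintype.piFinset fun _ : Fin k => twists P

open Classical in
/-- The good `D` are pseudorandom of order `k` in the group `twists P`, with density `c`, up to `ε`. -/
structure Pseudorandom (k : ℕ) (ε : ℝ) (P : Finset ℕ) : Prop where
  /-- no correlation with products of functions of `k - 1` variables -/
  boxes : ∀ u : Fin k → (Fin k → ℕ) → ℝ, (∀ i D, |u i D| ≤ 1) →
    (∀ i D x, u i (Function.update D i x) = u i D) →
    |∑ D ∈ tuples k P, (∏ i, u i D) * (g (core (∏ i, D i)) - c)| ≤ ε * (twists P).card ^ k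
  /-- no correlation with the signs of the polynomials of degree `< k` (sums of the monomials given
  by the sets of primes `T ∈ 𝒬`) -/
  polynomials : ∀ 𝒬 : Finset (Finset ℕ), (∀ T ∈ 𝒬, T ⊆ P ∧ T.card < k) →
    |∑ D ∈ twists P, (-1) ^ (𝒬.filter fun T => ∀ p ∈ T, p ∣ D).card * (g D - c)| ≤
      ε * (twists P).card
  /-- the law of the pattern of a random `k`-tuple -/
  patterns : ∀ A : Finset (Finset (Fin k)), ∅ ∉ A →
    |(((tuples k P).filter fun D => ∀ l : Finset (Fin k), l ≠ ∅ →
        (Good (core (∏ i ∈ l, D i)) ↔ l ∈ A)).card : ℝ) -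
      c ^ A.card * (1 - c) ^ (2 ^ k - 1 - A.card) * (twists P).card ^ k| ≤
      ε * (twists P).card ^ k

section proof

open Pool.Agent.H757_X15.DD (Fm Crit c1 t_LA1)
open Pool.Agent.H468.MQ
open Pool.Agent.H468.X15.DX (Family)
open Pool.Agent.H468.X15.GF (tw)
open Pool.Agent.H454.QB (grp Pr)
open Pool.Agent.H454.QD (twF)
open Pool.Agent.H454.QE (Exc3 gi boxes_nat polys_nat law_nat)

lemma c_bounds : 0.2887 < c ∧ c < 0.2888 := t_LA1.2.2.2

lemma sel_iff {D : ℕ} (hS : Squarefree D) (hD : Fm D) (h1 : D ≠ 1) : RankZeroShaTwo D ↔ Crit D :=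
  Pool.Agent.H468.X15.sha_iff_crit (Pool.Agent.H468.X15.mod_short hS.ne_zero _ _ rfl rfl)
    hS hD h1 fun hC => Pool.Agent.Y687.finite_pt_of_set
      (Pool.Agent.H468.X15.finite_set hS hD hC h1)

lemma grp_two {D : ℕ} (hS : Squarefree D) (hD : Fm D) : IsGrp ({1, D} : Set ℕ) := by
  have hDD : tw D D = 1 := by
    unfold tw
    rw [Nat.gcd_self]
    have : 0 < D * D := Nat.mul_pos hS.ne_zero.bot_lt hS.ne_zero.bot_lt
    rw [pow_two, Nat.div_self this]
  refine ⟨Or.inl rfl, ?_, ?_⟩
  · rintro M (rfl | rfl)
    · exact family_one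
    · exact ⟨hS, hD⟩
  · rintro M (rfl | rfl) N (rfl | rfl)
    · left; unfold tw; simp
    · right; unfold tw; simp
    · right; unfold tw; simp
    · left; exact hDD

lemma quad_le (D : ℕ) : Quad D ≤ KG ({1, D} : Set ℕ) := by
  unfold Quad KG
  apply IntermediateField.adjoin.mono
  intro z hz
  exact ⟨D, Or.inr rfl, hz⟩

lemma below_of {D : ℕ} (hS : Squarefree D) (hD : Fm D) (hc : Crit D) :
    RankConjectureBelow (Quad D) := by
  intro F' hF'
  have hG := grp_two hS hD
  have hFG : F' ≤ KG ({1, D} : Set ℕ) := hF'.trans (quad_le D)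
  have hC : ∀ M ∈ ({1, D} : Set ℕ), M = 1 ∨ Crit M := by
    rintro M (rfl | rfl)
    · exact Or.inl rfl
    · exact Or.inr hc
  have hfd : FiniteDimensional ℚ (KG ({1, D} : Set ℕ)) :=
    Pool.Agent.H454.QE.KG_fin hG (Set.toFinite _)
  have : FiniteDimensional ℚ F' :=
    FiniteDimensional.of_injective (IntermediateField.inclusion hFG).toLinearMap
      (IntermediateField.inclusion hFG).injective
  have hnf : NumberField F' := { to_charZero := inferInstance, to_finiteDimensional := inferInstance }
  refine ⟨hnf, ?_⟩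
  obtain ⟨L, h3, h4, h5⟩ := lfun hG hC F' hFG
  have hfin : Finite (base E F').toAffine.Point := finite_base hG hC F' hFG
  have h0 : Module.finrank ℤ (base E F').toAffine.Point = 0 := by
    apply Module.IsTorsion.finrank_eq_zero
    intro Q
    refine ⟨⟨(Nat.card (base E F').toAffine.Point : ℤ), ?_⟩, ?_⟩
    · rw [mem_nonZeroDivisors_iff_ne_zero]
      exact_mod_cast Nat.card_pos.ne'
    · show (Nat.card (base E F').toAffine.Point : ℤ) • Q = 0
      rw [natCast_zsmul]
      exact card_nsmul_eq_zero'
  refine ⟨L, h3, h4, ?_, h0, hfin⟩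
  rw [h0]
  exact analyticOrderAt_eq_zero.2 (Or.inr h5)

lemma mem_twists {P : Finset ℕ} {D : ℕ} : D ∈ twists P ↔ D ∈ grp P ∧ Fm D := by
  unfold twists grp Fm
  rw [Finset.mem_filter]

lemma sq_of_mem {P : Finset ℕ} (hP : ∀ q ∈ P, q.Prime ∧ 7 ≤ q) {D : ℕ} (hD : D ∈ grp P) :
    Squarefree D := by
  unfold grp at hD
  obtain ⟨S, hS, rfl⟩ := Finset.mem_image.1 hD
  exact Pool.Agent.H454.QB.sqfree_prod fun q hq => (hP q (Finset.mem_powerset.1 hS hq)).1

lemma twists_eq (P : Finset ℕ) : twists P = twF P := by
  classical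
  ext D
  rw [mem_twists]
  unfold Pool.Agent.H454.QD.twF
  rw [Finset.mem_filter]

lemma good_iff {D : ℕ} (hS : Squarefree D) (hD : Fm D) (h1 : D ≠ 1) : Good D ↔ Crit D :=
  ⟨fun h => (sel_iff hS hD h1).1 h.1, fun h => ⟨(sel_iff hS hD h1).2 h, below_of hS hD h⟩⟩

lemma primeSets_eq (m X : ℕ) : primeSets m X = (Pr X).powersetCard m := by
  unfold primeSets
  congr 1
  ext p
  rw [Pool.Agent.H454.QB.mem_Pr, Finset.mem_filter, Finset.mem_Icc]
  constructor
  · rintro ⟨⟨h1, h2⟩, h3⟩; exact ⟨h2, h3, h1⟩
  · rintro ⟨h1, h2, h3⟩; exact ⟨⟨h3, h1⟩, h2⟩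

lemma twists_large {P : Finset ℕ} (hP : ∀ p ∈ P, p.Prime ∧ 7 ≤ p) :
    2 ^ P.card ≤ 8 * (twists P).card := by
  rw [twists_eq]
  exact Pool.Agent.H454.QB.fam_large hP

lemma core_mem {P : Finset ℕ} (hP : ∀ q ∈ P, q.Prime ∧ 7 ≤ q) {k : ℕ} {D : Fin k → ℕ}
    (hD : D ∈ tuples k P) (l : Finset (Fin k)) : core (∏ i ∈ l, D i) ∈ twists P := by
  classical
  obtain ⟨p, hp, hinj, himg⟩ := Pool.Agent.H454.QD.as_tuple hP
  unfold tuples at hD
  rw [Fintype.mem_piFinset] at hD
  have h1 : ∀ i, ∃ S ∈ Pool.Agent.H454.QB.Fam (fun i => Pool.Agent.H757_X15.DD.aa (p i))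
      (fun i => Pool.Agent.H757_X15.DD.bb (p i)) (fun i => Pool.Agent.H454.QB.cc (p i)),
      Pool.Agent.H454.QB.Dp p S = D i := by
    intro i
    have h2 := hD i
    rw [twists_eq, ← himg, Pool.Agent.H454.QD.twF_image hp hinj] at h2
    exact Finset.mem_image.1 h2
  choose S hS1 hS2 using h1
  have h3 : D = fun i => Pool.Agent.H454.QB.Dp p (S i) := (funext hS2).symm
  have h4 := Pool.Agent.H454.QE.core_prod hp hinj S l
  have h5 : core (∏ i ∈ l, D i) ∈ twF (Finset.univ.image p) := by
    rw [h3, Pool.Agent.H454.QD.twF_image hp hinj]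
    refine Finset.mem_image.2 ⟨_, Pool.Agent.H454.QE.Sx_mem hS1 l, ?_⟩
    rw [← h4]
    unfold Pool.Agent.H454.QE.core core
    apply Finset.prod_congr _ fun _ _ => rfl
    ext q
    simp only [Finset.mem_filter]
  rw [himg] at h5
  rw [twists_eq]
  exact h5

lemma pseudo_of {ε : ℝ} (hε : 0 < ε) {k : ℕ} (hk : 0 < k) {P : Finset ℕ}
    (hP : ∀ q ∈ P, q.Prime ∧ 7 ≤ q)
    (h1 : ¬ Exc3 (Fin k ⊕ Fin k) ((ε / 2) ^ 2 ^ k / 2) P)
    (h2 : ¬ Exc3 (Fin k) (ε / (2 * 2 ^ 2 ^ k)) P)
    (hl1 : 2 ^ (2 * k) ≤ (ε / 2) ^ 2 ^ k / 2 * (twists P).card)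
    (hl2 : 2 ^ k ≤ ε / (2 * 2 ^ 2 ^ k) * (twists P).card) : Pseudorandom k ε P := by
  classical
  rw [twists_eq] at hl1 hl2
  have hG : ∀ D ∈ twF P, D ≠ 1 → (Good D ↔ Crit D) := by
    intro D hD h0
    rw [← twists_eq] at hD
    exact good_iff (sq_of_mem hP (mem_twists.1 hD).1) (mem_twists.1 hD).2 h0
  have hcore : ∀ n, Pool.Agent.H454.QE.core n = core n := by
    intro n
    unfold Pool.Agent.H454.QE.core core
    apply Finset.prod_congr _ fun _ _ => rfl
    ext q
    simp only [Finset.mem_filter]
  have hg : ∀ n, gi Good n = g n := by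
    intro n
    unfold gi g
    exact if_congr Iff.rfl rfl rfl
  have hc : c1 = c := rfl
  refine ⟨?_, ?_, ?_⟩
  · intro u hu hi
    have h3 := boxes_nat (Gp := Good) hP hG hk hε h1 hl1 u hu hi
    unfold tuples
    rw [twists_eq]
    simp only [hcore, hg, hc] at h3
    exact h3
  · intro 𝒬 h𝒬
    have h3 := polys_nat (Gp := Good) hP hG hk hε h1 hl1 𝒬 h𝒬
    rw [twists_eq]
    simp only [hg, hc] at h3
    refine le_trans (le_of_eq ?_) h3
    congr 1
  · intro A hA
    have h3 := law_nat (Q := Fin k) (Gp := Good) hP hG h2 (by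
      rw [Fintype.card_fin]
      exact hl2) hA
    rw [Fintype.card_fin, hc] at h3
    simp only [hcore] at h3
    unfold tuples
    rw [twists_eq]
    refine le_trans (le_of_eq ?_) (h3.trans (le_of_eq ?_))
    · congr 3
      apply congrArg Finset.card
      ext D
      simp only [Finset.mem_filter, Fintype.mem_piFinset]
    · field_simp

end proof

open Classical in
/-- **The theorem.**  `c` is between `0.2887` and `0.2888`; a set `P` of primes `≥ 7` has at least
`2 ^ #P / 8` elements in `twists P`, which is closed under the products modulo squares, and for all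
its elements `D ≠ 1` are good as soon as `E_D(ℚ)` is finite and `Ш(E_D/ℚ)[2] = 0`; and for every
`k ≥ 1`, every `ε > 0` and every large `m`, for all large `X` all but a proportion at most `ε` of the
sets `P` of `m` primes between `7` and `X` satisfy `Pseudorandom k ε P`. -/
theorem result :
    (0.2887 < c ∧ c < 0.2888) ∧
    (∀ P : Finset ℕ, (∀ p ∈ P, p.Prime ∧ 7 ≤ p) → 2 ^ P.card ≤ 8 * (twists P).card ∧
      (∀ k : ℕ, ∀ D ∈ tuples k P, ∀ l : Finset (Fin k), core (∏ i ∈ l, D i) ∈ twists P) ∧
      ∀ D ∈ twists P, D ≠ 1 → RankZeroShaTwo D → Good D) ∧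
    (∀ k : ℕ, 1 ≤ k → ∀ ε : ℝ, 0 < ε → ∃ m₀ : ℕ, ∀ m : ℕ, m₀ ≤ m → ∀ᶠ X : ℕ in atTop,
      (((primeSets m X).filter fun P => ¬ Pseudorandom k ε P).card : ℝ) ≤
        ε * (primeSets m X).card) := by
  refine ⟨c_bounds, fun P hP => ⟨twists_large hP, fun k D hD l => core_mem hP hD l, ?_⟩,
    fun k hk ε hε => ?_⟩
  · intro D hD h1 h2
    exact (good_iff (sq_of_mem hP (mem_twists.1 hD).1) (mem_twists.1 hD).2 h1).2
      ((sel_iff (sq_of_mem hP (mem_twists.1 hD).1) (mem_twists.1 hD).2 h1).1 h2)
  set δ1 : ℝ := (ε / 2) ^ 2 ^ k / 2 with hδ1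
  set δ2 : ℝ := ε / (2 * 2 ^ 2 ^ k) with hδ2
  have hδ10 : 0 < δ1 := by positivity
  have hδ20 : 0 < δ2 := by positivity
  obtain ⟨m0, hm0⟩ := Pool.Agent.H454.QE.sets3 (Fin k ⊕ Fin k) δ1 (ε / 2) hδ10 (by positivity)
  obtain ⟨m0', hm0'⟩ := Pool.Agent.H454.QE.sets3 (Fin k) δ2 (ε / 2) hδ20 (by positivity)
  obtain ⟨m1, hm1⟩ := pow_unbounded_of_one_lt (8 * 2 ^ (2 * k) / δ1 + 8 * 2 ^ k / δ2 : ℝ)
    (one_lt_two)
  refine ⟨max (max m0 m0') m1, fun m hm => ?_⟩
  filter_upwards [hm0 m ((le_max_left _ _).trans ((le_max_left _ _).trans hm)),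
    hm0' m ((le_max_right _ _).trans ((le_max_left _ _).trans hm))] with X hX hX'
  rw [primeSets_eq]
  have hsub : ((Pool.Agent.H454.QB.Pr X).powersetCard m).filter (fun P => ¬ Pseudorandom k ε P) ⊆
      (((Pool.Agent.H454.QB.Pr X).powersetCard m).filter fun P => Pool.Agent.H454.QE.Exc3 (Fin k ⊕ Fin k) δ1 P) ∪
      (((Pool.Agent.H454.QB.Pr X).powersetCard m).filter fun P => Pool.Agent.H454.QE.Exc3 (Fin k) δ2 P) := by
    intro P hP
    rw [Finset.mem_filter] at hP
    rw [Finset.mem_union, Finset.mem_filter, Finset.mem_filter]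
    by_contra hE
    push Not at hE
    have hPp : ∀ q ∈ P, q.Prime ∧ 7 ≤ q := fun q hq =>
      (Pool.Agent.H454.QB.mem_Pr.1 ((Finset.mem_powersetCard.1 hP.1).1 hq)).2
    have h1 := twists_large hPp
    rw [(Finset.mem_powersetCard.1 hP.1).2] at h1
    have h2 : (2 : ℝ) ^ m ≤ 8 * (twists P).card := by exact_mod_cast h1
    have h3 : (2 : ℝ) ^ m1 ≤ 2 ^ m :=
      pow_le_pow_right₀ one_le_two (le_trans (le_max_right _ _) hm)
    have h4 : 8 * 2 ^ (2 * k) / δ1 + 8 * 2 ^ k / δ2 ≤ 8 * (twists P).card := by linarith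
    have h5 : (0 : ℝ) < 8 * 2 ^ (2 * k) / δ1 := by positivity
    have h6 : (0 : ℝ) < 8 * 2 ^ k / δ2 := by positivity
    refine hP.2 (pseudo_of hε hk hPp (hE.1 hP.1) (hE.2 hP.1) ?_ ?_)
    · have h7 : 8 * 2 ^ (2 * k) / δ1 ≤ 8 * (twists P).card := by linarith
      rw [div_le_iff₀ hδ10] at h7
      show (2 : ℝ) ^ (2 * k) ≤ δ1 * (twists P).card
      linarith
    · have h7 : 8 * 2 ^ k / δ2 ≤ 8 * (twists P).card := by linarith
      rw [div_le_iff₀ hδ20] at h7
      show (2 : ℝ) ^ k ≤ δ2 * (twists P).card
      linarith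
  have hcard : ((((Pool.Agent.H454.QB.Pr X).powersetCard m).filter (fun P => ¬ Pseudorandom k ε P)).card : ℝ) ≤
      ((((Pool.Agent.H454.QB.Pr X).powersetCard m).filter fun P => Pool.Agent.H454.QE.Exc3 (Fin k ⊕ Fin k) δ1 P).card : ℝ) +
      ((((Pool.Agent.H454.QB.Pr X).powersetCard m).filter fun P => Pool.Agent.H454.QE.Exc3 (Fin k) δ2 P).card : ℝ) := by
    exact_mod_cast (Finset.card_le_card hsub).trans (Finset.card_union_le _ _)
  linarith

end Pool.Agent.Results.MP_32c55d_nt.AllOrdersX15
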