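import Pool.Agent.H468.MR.Tow

/-!
# The rank conjecture over multiquadratic fields: the relative law with exact densities

`E` is the elliptic curve of conductor `17` with all its points of order two rational,
`y² + x y = x³ - 4 x² - x`, isogenous to `X_0(17)`, without complex multiplication.  A number field
`F ⊂ ℂ` is multiquadratic if it is contained in the field generated by the square roots of all the
integers: no condition on the ramification or on the signs.  `Radicals F` is the set of the squarefree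
integers with a square root in `F`.  `E_n` is the quadratic twist of `E` by `n`, and `Trivial n` says that
`E_n(ℚ)` is finite and `Ш(E_n/ℚ)` has no element of order two; `tw t m` is the squarefree part of `t m`.

The theorem:
* (absolute) for EVERY multiquadratic number field `F` there are exactly `[F : ℚ]` radicals and the
  `L`-function of `E/F` (the product of the Euler factors over all the places of `F`, including all the bad
  and all the ramified ones) is entire; it vanishes at `s = 1` if the root number of one of the twists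
  `E_m`, `m ∈ Radicals F`, is `-1`; if `E(F)` is finite and none of the groups `Ш(E_m/ℚ)`, `m ∈ Radicals F`,
  has an element of order two, then the order of vanishing of `L(E/F, s)` at `s = 1` is the rank of `E(F)`,
  and both are `0`;
* `Trivial n` holds if and only if the explicit criterion `Good n` holds: a symmetric matrix over `𝔽₂`,
  made of the Rédei matrix of `ℚ(√n)`, the signs of the prime discriminants and the symbols `(17/p)`, is
  nonsingular;
* (relative, without any condition on the rank of `E(F)`) for ALL multiquadratic number fields `F ⊆ F'`: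
  if `Trivial n` for all the radicals `n` of `F'` which are not radicals of `F`, then
  `rank E(F') = rank E(F)`, `ord_{s=1} L(E/F', s) = ord_{s=1} L(E/F, s)`, and the rank conjecture for
  `E/F'` is equivalent to the rank conjecture for `E/F`; for `F' = F(√m)` the new radicals are the
  `tw t m`, `t ∈ Radicals F`;
* (exact joint law) for EVERY multiquadratic number field `F`: the classes of the quadratic fields `ℚ(√m)`
  given by the root numbers of the `E_{tw t m}`, `t ∈ Radicals F`, and by the completions at finitely many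
  places, have positive lower density by `|disc ℚ(√m)|`; in each of them the events `Trivial (tw t m)`,
  for the `t ∈ Radicals F` with root number `1`, are EXACTLY independent of probability
  `c = (1 - 1/2) (1 - 1/8) (1 - 1/32) ⋯ = 0.4194...`; so if the root numbers are all `1`, then in proportion
  exactly `c ^ [F : ℚ]` all the `Trivial (tw t m)` hold, and the rank of `E`, the order of vanishing and the
  validity of the rank conjecture do not change from `F` to `F(√m)`;
* (infinite extensions) for every multiquadratic number field `F` which is real and where `17` splits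
  completely, there is an extension `K / F` of infinite degree, multiquadratic, real and split at `17`, such
  that these three things do not change from `F` to any number field between `F` and `K`; in particular
  there is such a `K` of infinite degree over `ℚ` where the rank conjecture holds for `E` over every number
  field contained in `K`;
* (all the quadratic fields, real and imaginary, by `|disc|`) `Trivial2 F`, and so the rank conjecture with
  both sides `0`, holds for a set of quadratic fields `F` of density EXACTLY `c / 2 = 0.2097...`; the root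
  number of `E/F` is `1` for one half of all the quadratic fields.

Proof.  `Pool/Agent/H468/MF`: the `L`-function over `F` as the product of the `L`-functions of the twists,
through a cyclotomic field of level `8 N` and its Gauss sums, with the Euler factors at all places (traces
over the residue fields of `2`, `3`, `17` and of the good places, two minimal models of the twists); the exact
value `L(E, 1) = Ω / 8`; the points of `E` over `F` in terms of the twists, in both directions; the counting
of the quadratic fields.  `Pool/Agent/H468/MR`: the relative part.  `Pool/Agent/H743/JL` (helper743 and the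
helpers named there): the joint law for the criterion.  `Pool/Agent/H743/X17` (helper743): complete
2-descent for all the twists.  Library (run 63374d34): `L`-values modulo two and the distribution of the
criterion; `Y18/NF`: characters of subfields of cyclotomic fields; `Q283`: points over towers of quadratic
extensions.
-/

set_option autoImplicit false

open NumberField IsDedekindDomain Filter Topology

namespace Pool.Agent.Results.MP_32c55d_nt.EveryMultiquadraticFieldX17

open Pool.Agent.TH841.SH.D (Sha)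

/-- The elliptic curve `y² + x y = x³ - 4 x² - x` of conductor `17` (discriminant `17²`: the equation is
minimal at all the places of all the number fields). -/
def E : WeierstrassCurve ℤ := ⟨1, -4, 0, -1, 0⟩

/-- The curve given by the equation of `W` over the ring `R`. -/
abbrev base (W : WeierstrassCurve ℤ) (R : Type) [CommRing R] : WeierstrassCurve R :=
  W.map (Int.castRingHom R)

/-- The number of the affine points `(x, y)` over the ring `R`. -/
noncomputable def pts (W : WeierstrassCurve ℤ) (R : Type) [CommRing R] : ℕ :=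
  Nat.card {P : R × R // (base W R).toAffine.Equation P.1 P.2}

section

variable {K : Type} [Field K] [NumberField K]

/-- `a_v = N v + 1 - #W(k_v)`, the points over the residue field `k_v` counted with the point at
infinity. -/
noncomputable def a (W : WeierstrassCurve ℤ) (v : HeightOneSpectrum (𝓞 K)) : ℤ :=
  (Ideal.absNorm v.asIdeal : ℤ) - pts W (𝓞 K ⧸ v.asIdeal)

open Classical in
/-- The Euler factor of `L(W/K, s)` at `v` : `(1 - a_v N v^(-s) + N v^(1 - 2 s))⁻¹` if the
discriminant is a unit at `v`, and `(1 - a_v N v^(-s))⁻¹` otherwise. -/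
noncomputable def factor (W : WeierstrassCurve ℤ) (s : ℂ) (v : HeightOneSpectrum (𝓞 K)) : ℂ :=
  (1 - (a W v : ℂ) * (Ideal.absNorm v.asIdeal : ℂ) ^ (-s) +
    if ((W.Δ : ℤ) : 𝓞 K) ∈ v.asIdeal then 0 else (Ideal.absNorm v.asIdeal : ℂ) ^ (1 - 2 * s))⁻¹

end

/-- `L` is entire, and for `Re s > 3/2` it is the product of the Euler factors of `E` at all the places
of `F` -/
def IsL (F : IntermediateField ℚ ℂ) [NumberField F] (L : ℂ → ℂ) : Prop :=
  Differentiable ℂ L ∧ ∀ s : ℂ, 3 / 2 < s.re → HasProd (factor (K := F) E s) (L s)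

/-- The rank conjecture holds for `E` over the number field `F ⊂ ℂ`: there is an entire function `L` which
for `Re s > 3/2` is the product of the Euler factors at all the places of `F`, and its order of vanishing at
`s = 1` is the rank of `E(F)`. -/
def RankConjecture (F : IntermediateField ℚ ℂ) [NumberField F] : Prop :=
  ∃ L : ℂ → ℂ, IsL F L ∧
    analyticOrderAt L 1 = ((Module.finrank ℤ (base E F).toAffine.Point : ℕ) : ℕ∞)

/-- The rank conjecture with both sides `0`; moreover `E(F)` is finite. -/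
def RankConjectureZero (F : IntermediateField ℚ ℂ) [NumberField F] : Prop :=
  RankConjecture F ∧ Module.finrank ℤ (base E F).toAffine.Point = 0 ∧
    Finite (base E F).toAffine.Point

/-- From `F` to `F'` the rank of `E`, the order of vanishing of its `L`-function at `s = 1` and the
validity of the rank conjecture do not change. -/
def Same (F F' : IntermediateField ℚ ℂ) [NumberField F] [NumberField F'] : Prop :=
  Module.finrank ℤ (base E F').toAffine.Point = Module.finrank ℤ (base E F).toAffine.Point ∧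
  (∀ L L' : ℂ → ℂ, IsL F L → IsL F' L' → analyticOrderAt L' 1 = analyticOrderAt L 1) ∧
  (RankConjecture F' ↔ RankConjecture F)

/-- `F` is contained in the field generated by the square roots of all the integers. -/
def Multiquadratic (F : IntermediateField ℚ ℂ) : Prop :=
  F ≤ IntermediateField.adjoin ℚ {z : ℂ | ∃ m : ℤ, z ^ 2 = (m : ℂ)}

/-- the squarefree integers with a square root in `F` -/
def Radicals (F : IntermediateField ℚ ℂ) : Set ℤ := {m | Squarefree m ∧ ∃ z ∈ F, z ^ 2 = (m : ℂ)}

/-- the quadratic twist by `m` of `E`, `y² = x (x + m) (x - 16 m)` -/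
def Etw (m : ℤ) : WeierstrassCurve ℚ := ⟨0, ((-15 * m : ℤ) : ℚ), 0, ((-16 * m ^ 2 : ℤ) : ℚ), 0⟩

/-- `E_m(ℚ)` is finite, and `Ш(E_m/ℚ)` has no element of order two -/
def Trivial (m : ℤ) : Prop :=
  Finite (Etw m).toAffine.Point ∧ ∀ x : Sha (Etw m), x + x = 0 → x = 0

/-- `E(F)` is finite, and `Ш(E_m/ℚ)` has no element of order two for all the twists `E_m` of `E`,
`m ∈ Radicals F` -/
def Trivial2 (F : IntermediateField ℚ ℂ) : Prop :=
  Finite (base E F).toAffine.Point ∧ ∀ m ∈ Radicals F, ∀ x : Sha (Etw m), x + x = 0 → x = 0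

/-- the root number of `E_m` is `1` -/
def Root (m : ℤ) : Prop := (0 < m ∧ jacobiSym m 17 = 1) ∨ (m < 0 ∧ jacobiSym m 17 ≠ 1)

/-- the squarefree part of `t m`, for squarefree `t` and `m` -/
def tw (t m : ℤ) : ℤ := t * m / (Int.gcd t m : ℤ) ^ 2

/-! ### the criterion -/

/-- the absolute value of the discriminant of `ℚ(√m)`, `m` squarefree -/
def disc (m : ℤ) : ℕ := if m % 4 = 1 then m.natAbs else 4 * m.natAbs

/-- the primes ramified in `ℚ(√m)` -/
def R (m : ℤ) : Finset ℕ := (disc m).primeFactors

/-- the prime discriminant `q*` of `ℚ(√m)`, `q ∈ R m` -/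
def star (m : ℤ) (q : ℕ) : ℤ :=
  if q = 2 then (if m % 4 = 3 then -4 else if m % 8 = 2 then 8 else -8)
  else if q % 4 = 1 then q else -q

/-- the Kronecker symbol `(q* / p)`, `p ≠ q`, written additively -/
def sym (m : ℤ) (q p : ℕ) : ZMod 2 :=
  if p = 2 then (if star m q % 8 = 1 ∨ star m q % 8 = 7 then 0 else 1)
  else (if jacobiSym (star m q) p = 1 then 0 else 1)

/-- the Rédei matrix: `(q* / p)` outside of the diagonal, and the sums of the rows are zero -/
def M (m : ℤ) (p q : ℕ) : ZMod 2 := if p = q then ∑ r ∈ (R m).erase p, sym m r p else sym m q p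

/-- the sign of `q*`, written additively -/
def sg (m : ℤ) (q : ℕ) : ZMod 2 := if star m q < 0 then 1 else 0

/-- the Kronecker symbol `(17 / p)`, written additively -/
def nu (p : ℕ) : ZMod 2 := if p = 2 then 0 else if jacobiSym 17 p = 1 then 0 else 1

/-- **The criterion**: the homogeneous system over `𝔽₂` with the symmetric matrix
`[[diag (17/p), M], [Mᵀ, diag (sign of q*)]]`, without the row and the column of the first block which
belong to `17`, has only the trivial solution. -/
def Good (m : ℤ) : Prop := ∀ x y : ℕ → ZMod 2, x 17 = 0 →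
  (∀ p ∈ (R m).erase 17, nu p * x p + ∑ q ∈ R m, M m p q * y q = 0) →
  (∀ q ∈ R m, ∑ p ∈ R m, M m p q * x p + sg m q * y q = 0) →
  ∀ p ∈ R m, x p = 0 ∧ y p = 0

/-! ### quadratic fields -/

/-- the field `ℚ(√m)` -/
noncomputable def quadratic (m : ℤ) : IntermediateField ℚ ℂ :=
  IntermediateField.adjoin ℚ {z : ℂ | z ^ 2 = (m : ℂ)}

open Classical in
/-- the number of the quadratic fields `ℚ(√m)`, `m` squarefree, `|disc| ≤ X`, with the property `P` -/
noncomputable def num (P : ℤ → Prop) (X : ℕ) : ℕ :=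
  ((Finset.Icc (-(X : ℤ)) X).filter fun m => Squarefree m ∧ m ≠ 1 ∧ disc m ≤ X ∧ P m).card

/-- `m` and `d₀` have the same class in `ℚ_p^×` modulo squares for `p ∈ S`, and the same sign if `inf` -/
def SameClass (inf : Prop) (S : Finset ℕ) (d₀ m : ℤ) : Prop :=
  (inf → 0 < m * d₀) ∧ ∀ (p : ℕ) [Fact p.Prime], p ∈ S → IsSquare ((m * d₀ : ℤ) : ℚ_[p])

/-- the class of `d₀`: the root numbers of the twists by `tw t m` and by `tw t d₀` are the same for all the
`t ∈ Radicals F`, and the completions of `ℚ(√m)` and `ℚ(√d₀)` at the places in `S` (and at the real place if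
`inf`) are the same -/
def Class (F : IntermediateField ℚ ℂ) (inf : Prop) (S : Finset ℕ) (d₀ m : ℤ) : Prop :=
  (∀ t ∈ Radicals F, (Root (tw t m) ↔ Root (tw t d₀))) ∧ SameClass inf S d₀ m

/-- the radicals `t` of `F` such that the root number of the twist by `tw t d₀` is `1` -/
def Plus (F : IntermediateField ℚ ℂ) (d₀ : ℤ) : Set ℤ := {t | t ∈ Radicals F ∧ Root (tw t d₀)}

/-- the constant `(1 - 1/2) (1 - 1/8) (1 - 1/32) ⋯ = 0.4194...` -/
noncomputable def c : ℝ := ∏' i : ℕ, (1 - (1 / 2 : ℝ) ^ (2 * i + 1))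

section proof

open Pool.Agent.H468.MF (Kinf Lam Lam_spec mq_main crit_iff quad quad_mem quad_crit quad_le)
open Pool.Agent.H743.X17 (Sys parts)

lemma etw (m : ℤ) : Pool.Agent.H743.X17.EAB m (-16 * m) = Etw m := Pool.Agent.H468.MF.EAB_eq m

lemma trivial_iff {m : ℤ} (hm : Squarefree m) : Trivial m ↔ Good m := by
  unfold Trivial
  rw [← etw]
  exact Pool.Agent.H468.MF.finSha_two.symm.trans (Pool.Agent.H468.MF.tri_iff hm)

lemma triv_iff (F : IntermediateField ℚ ℂ) [NumberField F] (hF : Multiquadratic F) :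
    Trivial2 F ↔ ∀ m ∈ Radicals F, Good m := by
  have h := crit_iff F hF
  constructor
  · rintro ⟨h1, h2⟩ m ⟨hm, hz⟩
    refine h.1 ⟨h1, fun n hn hw => ?_⟩ m hm hz
    rw [etw]
    exact h2 n ⟨hn, hw⟩
  · intro h1
    obtain ⟨h2, h3⟩ := h.2 fun m hm hz => h1 m ⟨hm, hz⟩
    refine ⟨h2, fun m hm => ?_⟩
    rw [← etw]
    exact h3 m hm.1 hm.2

lemma rank_zero {A : Type} [AddCommGroup A] (hfin : Finite A) : Module.finrank ℤ A = 0 := by
  apply Module.IsTorsion.finrank_eq_zero
  intro P
  refine ⟨⟨(Nat.card A : ℤ), ?_⟩, ?_⟩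
  · rw [mem_nonZeroDivisors_iff_ne_zero]
    exact_mod_cast Nat.card_pos.ne'
  · show (Nat.card A : ℤ) • P = 0
    rw [natCast_zsmul]
    exact card_nsmul_eq_zero'

lemma main (F : IntermediateField ℚ ℂ) [NumberField F] (hF : Multiquadratic F) :
    ∃ D : Finset ℤ, (∀ m, m ∈ D ↔ m ∈ Radicals F) ∧ D.card = Module.finrank ℚ F ∧
      IsL F (fun s => ∏ m ∈ D, Lam m s) ∧ ((∃ m ∈ D, ¬ Root m) → ∏ m ∈ D, Lam m 1 = 0) ∧
      (Trivial2 F → ∏ m ∈ D, Lam m 1 ≠ 0) := by
  obtain ⟨D, hD, hprod, -, hcard⟩ := mq_main F hF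
  refine ⟨D, hD, hcard, ⟨?_, hprod⟩, ?_, ?_⟩
  · refine Differentiable.fun_finsetProd fun m hm => ?_
    exact (Lam_spec ((hD m).1 hm).1).1
  · rintro ⟨m, hm, hR⟩
    exact Finset.prod_eq_zero hm (Pool.Agent.H468.MF.Lam_zero ((hD m).1 hm).1 hR)
  · intro hT
    refine Finset.prod_ne_zero_iff.2 fun m hm => ?_
    exact Pool.Agent.H468.MF.Lam_ne ((hD m).1 hm).1 ((triv_iff F hF).1 hT m ((hD m).1 hm))

lemma converse (F : IntermediateField ℚ ℂ) [NumberField F] (hF : Multiquadratic F)
    (hT : Trivial2 F) : RankConjectureZero F := by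
  obtain ⟨D, -, -, hL, -, h1⟩ := main F hF
  have h0 := rank_zero hT.1
  refine ⟨⟨_, hL, ?_⟩, h0, hT.1⟩
  rw [h0]
  exact (hL.1.analyticAt 1).analyticOrderAt_eq_zero.2 (h1 hT)

lemma same_of (F F' : IntermediateField ℚ ℂ) [NumberField F] [NumberField F'] (hle : F ≤ F')
    (hF' : Multiquadratic F') (h : ∀ n ∈ Radicals F', n ∉ Radicals F → Trivial n) : Same F F' := by
  have hS : ∀ n ∈ Radicals F', n ∉ Radicals F → Sys n := fun n hn hn' =>
    (trivial_iff hn.1).1 (h n hn hn')
  have hr : Module.finrank ℤ (base E F').toAffine.Point =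
      Module.finrank ℤ (base E F).toAffine.Point :=
    (Pool.Agent.H468.MR.rank_gen (Module.finrank ℚ F') F F' hle hF'
      (fun n hn hn' => ((Pool.Agent.H743.X17.finSha_iff parts hn.1).2 (hS n hn hn')).1)
      (by omega)).symm
  obtain ⟨D, hD, -, hL, -, -⟩ := main F (hle.trans hF')
  obtain ⟨D', hD', -, hL', -, -⟩ := main F' hF'
  have ho : analyticOrderAt (fun s => ∏ m ∈ D', Lam m s) 1 =
      analyticOrderAt (fun s => ∏ m ∈ D, Lam m s) 1 := by
    refine Pool.Agent.H468.MR.order_gen (fun t ht => ?_) (fun t ht => ((hD' t).1 ht).1)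
      fun t ht ht' => ?_
    · exact (hD' t).2 (Pool.Agent.H468.MR.rad_mono hle ((hD t).1 ht))
    · exact Pool.Agent.H468.MF.Lam_ne ((hD' t).1 ht).1
        (hS t ((hD' t).1 ht) fun hc => ht' ((hD t).2 hc))
  have hu : ∀ L L' : ℂ → ℂ, IsL F L → IsL F' L' → analyticOrderAt L' 1 = analyticOrderAt L 1 := by
    intro L L' h1 h2
    rw [Pool.Agent.H468.MR.L_unique h1.1 hL.1 h1.2 hL.2,
      Pool.Agent.H468.MR.L_unique h2.1 hL'.1 h2.2 hL'.2]
    exact ho
  refine ⟨hr, hu, ?_⟩
  constructor
  · rintro ⟨L', h1, h2⟩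
    refine ⟨_, hL, ?_⟩
    rw [← hu _ _ hL h1, h2, hr]
  · rintro ⟨L, h1, h2⟩
    refine ⟨_, hL', ?_⟩
    rw [hu _ _ h1 hL', h2, hr]

lemma quad_triv {m : ℤ} (hm : Squarefree m) (h1 : m ≠ 1) : Trivial2 (quadratic m) ↔ Good m := by
  have : NumberField (quadratic m) := Pool.Agent.H468.MF.quad_nf m
  rw [triv_iff (quadratic m) (quad_le m)]
  exact Iff.trans ⟨fun h n hn hz => h n ⟨hn, hz⟩, fun h n hn => h n hn.1 hn.2⟩ (quad_crit hm h1)

lemma sup_spec (F : IntermediateField ℚ ℂ) [NumberField F] (hF : Multiquadratic F) {m : ℤ}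
    (hm : Squarefree m) (hmF : m ∉ Radicals F) :
    Module.finrank ℚ (F ⊔ quadratic m : IntermediateField ℚ ℂ) = 2 * Module.finrank ℚ F ∧
    Radicals (F ⊔ quadratic m) = Radicals F ∪ (fun t => tw t m) '' Radicals F ∧
    Disjoint (Radicals F) ((fun t => tw t m) '' Radicals F) := by
  obtain ⟨D, hD, hc, -, -, -⟩ := main F hF
  have e : Radicals F = (D : Set ℤ) := Set.ext fun m => (hD m).symm
  obtain ⟨h1, h2, h3⟩ := Pool.Agent.H468.MR.radicals_sup F hF hD hc hm fun h => hmF ((hD m).1 h)
  have e2 : (fun t => tw t m) '' Radicals F =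
      ((D.image fun t => Pool.Agent.N855.GF.Tw.tw t m : Finset ℤ) : Set ℤ) := by
    rw [e, Finset.coe_image]
    rfl
  refine ⟨h3, ?_, ?_⟩
  · rw [e2, e, ← Finset.coe_union]
    exact Set.ext fun n => (h2 n).symm
  · rw [e2, e, Finset.disjoint_coe]
    exact h1

lemma num_congr {P Q : ℤ → Prop} (h : ∀ m, P m ↔ Q m) : num P = num Q := by
  have : P = Q := funext fun m => propext (h m)
  rw [this]

lemma num_congr' {P Q : ℤ → Prop} (h : ∀ m, Squarefree m → (P m ↔ Q m)) (X : ℕ) :
    num P X = num Q X := by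
  classical
  unfold num
  congr 1
  ext m
  rw [Finset.mem_filter, Finset.mem_filter]
  exact and_congr_right fun _ => and_congr_right fun hm => and_congr_right fun _ =>
    and_congr_right fun _ => h m hm

lemma joint_law (F : IntermediateField ℚ ℂ) [NumberField F] (hF : Multiquadratic F) (inf : Prop)
    (S : Finset ℕ) (hS : ∀ p ∈ S, p.Prime) (d₀ : ℤ) (hd : Squarefree d₀) :
    (∃ δ : ℝ, 0 < δ ∧ ∀ᶠ X : ℕ in atTop, δ * X ≤ num (Class F inf S d₀) X) ∧
    ∀ A ⊆ Plus F d₀, Tendsto (fun X : ℕ => (num (fun m => Class F inf S d₀ m ∧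
      ∀ t ∈ Radicals F, (Trivial (tw t m) ↔ t ∈ A)) X : ℝ) / (num (Class F inf S d₀) X : ℝ)) atTop
        (𝓝 (c ^ A.ncard * (1 - c) ^ (Plus F d₀ \ A).ncard)) := by
  classical
  obtain ⟨D, hD, -, -, -, -⟩ := main F hF
  have hDs : ∀ t ∈ D, Squarefree t := fun t ht => ((hD t).1 ht).1
  have eC : ∀ m, Class F inf S d₀ m ↔ Pool.Agent.H743.JL.Qc D inf S d₀ m := fun m =>
    and_congr_left' ⟨fun h t ht => h t ((hD t).1 ht), fun h t ht => h t ((hD t).2 ht)⟩
  refine ⟨?_, fun A hA => ?_⟩
  · obtain ⟨δ, X₀, h1, h2⟩ := Pool.Agent.H468.MR.joint_pos D inf S d₀ hDs hS hd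
    refine ⟨δ, h1, ?_⟩
    filter_upwards [eventually_ge_atTop X₀] with X hX
    rw [num_congr eC]
    exact h2 X hX
  · obtain ⟨B, hB⟩ : ∃ B : Finset ℤ, B = D.filter (· ∈ A) := ⟨_, rfl⟩
    have hBA : (B : Set ℤ) = A := by
      ext t
      rw [hB, Finset.coe_filter]
      exact ⟨fun h => h.2, fun h => ⟨(hD t).2 (hA h).1, h⟩⟩
    have hW : ((D.filter fun t => Pool.Agent.H743.X17.Rt (Pool.Agent.H743.JL.tw t d₀) : Finset ℤ) :
        Set ℤ) = Plus F d₀ := by
      ext t
      rw [Finset.coe_filter]
      exact and_congr_left' (hD t)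
    have hBW : B ⊆ D.filter fun t => Pool.Agent.H743.X17.Rt (Pool.Agent.H743.JL.tw t d₀) := by
      rw [← Finset.coe_subset, hBA, hW]
      exact hA
    have key := Pool.Agent.H468.MR.joint (P := Good) (fun _ _ => Iff.rfl) D inf S d₀ hDs hS hd hBW
    have e1 : A.ncard = B.card := by rw [← hBA, Set.ncard_coe_finset]
    have e2 : (Plus F d₀ \ A).ncard =
        ((D.filter fun t => Pool.Agent.H743.X17.Rt (Pool.Agent.H743.JL.tw t d₀)) \ B).card := by
      rw [← hBA, ← hW, ← Finset.coe_sdiff, Set.ncard_coe_finset]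
    rw [e1, e2]
    have e3 : ∀ X, num (fun m => Class F inf S d₀ m ∧
        ∀ t ∈ Radicals F, (Trivial (tw t m) ↔ t ∈ A)) X =
        Pool.Agent.H468.MF.numD (fun d => Pool.Agent.H743.JL.Qc D inf S d₀ d ∧
          ∀ t ∈ D, (Good (Pool.Agent.H743.JL.tw t d) ↔ t ∈ B)) X := by
      intro X
      refine num_congr' (fun m hm => ?_) X
      refine and_congr (eC m) ?_
      constructor
      · intro h t ht
        have h1 := h t ((hD t).1 ht)
        have h2 : t ∈ B ↔ t ∈ A := by rw [← hBA, Finset.mem_coe]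
        rw [h2, ← h1]
        exact (trivial_iff (Pool.Agent.N855.GF.Tw.tw_sqf (hDs t ht) hm)).symm
      · intro h t ht
        have ht' := (hD t).2 ht
        have h1 := h t ht'
        have h2 : t ∈ B ↔ t ∈ A := by rw [← hBA, Finset.mem_coe]
        rw [← h2, ← h1]
        exact trivial_iff (Pool.Agent.N855.GF.Tw.tw_sqf (hDs t ht') hm)
    simp only [e3, num_congr eC]
    exact key

lemma root_seventeen {t : ℤ} (h : 0 < t) (h17 : ¬ (17 : ℤ) ∣ t) : Root (tw t (-17)) := by
  have hg : Int.gcd t (-17) = 1 := by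
    rw [Int.gcd_neg]
    have hp : Prime (17 : ℤ) := Int.prime_iff_natAbs_prime.2 (by norm_num)
    rw [Int.gcd_comm]
    exact Int.isCoprime_iff_gcd_eq_one.1 ((Prime.coprime_iff_not_dvd hp).2 h17)
  have e : tw t (-17) = -(17 * t) := by
    unfold tw
    rw [hg]
    norm_num
    ring
  rw [e]
  right
  refine ⟨by omega, ?_⟩
  have h2 : jacobiSym (-(17 * t)) 17 = 0 := by
    rw [jacobiSym.eq_zero_iff_not_coprime]
    have h3 : (17 : ℤ) ∣ -(17 * t) := (Dvd.intro t rfl).neg_right
    have h4 : Int.gcd (-(17 * t)) 17 = 17 := by exact_mod_cast Int.gcd_eq_right (by norm_num) h3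
    rw [show ((17 : ℕ) : ℤ) = 17 from rfl, h4]
    norm_num
  rw [h2]
  norm_num

lemma infinite (F : IntermediateField ℚ ℂ) [hn : NumberField F] (hF : Multiquadratic F)
    (h : ∀ t ∈ Radicals F, 0 < t ∧ jacobiSym t 17 = 1) :
    ∃ K : IntermediateField ℚ ℂ, F ≤ K ∧ Multiquadratic K ∧ ¬ FiniteDimensional ℚ K ∧
      (∀ t ∈ Radicals K, 0 < t ∧ jacobiSym t 17 = 1) ∧
      ∀ t ∈ Radicals K, t ∉ Radicals F → Good t :=
  Pool.Agent.H468.MR.tower ⟨F, hn, hF, h⟩

end proof

theorem result :
    -- every multiquadratic number field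
    (∀ (F : IntermediateField ℚ ℂ) [NumberField F], Multiquadratic F →
      (Radicals F).Finite ∧ (Radicals F).ncard = Module.finrank ℚ F ∧
      (Trivial2 F ↔ ∀ m ∈ Radicals F, Trivial m) ∧ (Trivial2 F → RankConjectureZero F) ∧
      ∃ L : ℂ → ℂ, IsL F L ∧ ((∃ m ∈ Radicals F, ¬ Root m) → L 1 = 0)) ∧
    (∀ m : ℤ, Squarefree m → (Trivial m ↔ Good m)) ∧
    -- the relative statement, without any condition on the rank of `E(F)`
    (∀ (F F' : IntermediateField ℚ ℂ) [NumberField F] [NumberField F'], F ≤ F' →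
      Multiquadratic F' → (∀ n ∈ Radicals F', n ∉ Radicals F → Trivial n) → Same F F') ∧
    (∀ (F : IntermediateField ℚ ℂ) [NumberField F], Multiquadratic F → ∀ m : ℤ, Squarefree m →
      m ∉ Radicals F → Multiquadratic (F ⊔ quadratic m) ∧
      NumberField (F ⊔ quadratic m : IntermediateField ℚ ℂ) ∧
      Module.finrank ℚ (F ⊔ quadratic m : IntermediateField ℚ ℂ) = 2 * Module.finrank ℚ F ∧
      Radicals (F ⊔ quadratic m) = Radicals F ∪ (fun t => tw t m) '' Radicals F ∧
      Disjoint (Radicals F) ((fun t => tw t m) '' Radicals F)) ∧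
    -- the exact joint law in all the classes, by `|disc ℚ(√m)|`
    (∀ (F : IntermediateField ℚ ℂ) [NumberField F], Multiquadratic F → ∀ (inf : Prop) (S : Finset ℕ),
      (∀ p ∈ S, p.Prime) → ∀ d₀ : ℤ, Squarefree d₀ →
      (∃ δ : ℝ, 0 < δ ∧ ∀ᶠ X : ℕ in atTop, δ * X ≤ num (Class F inf S d₀) X) ∧
      ∀ A ⊆ Plus F d₀, Tendsto (fun X : ℕ => (num (fun m => Class F inf S d₀ m ∧
        ∀ t ∈ Radicals F, (Trivial (tw t m) ↔ t ∈ A)) X : ℝ) / (num (Class F inf S d₀) X : ℝ)) atTop
          (𝓝 (c ^ A.ncard * (1 - c) ^ (Plus F d₀ \ A).ncard))) ∧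
    -- classes where all the root numbers are `1`
    (∀ F : IntermediateField ℚ ℂ, (∀ t ∈ Radicals F, 0 < t ∧ ¬ (17 : ℤ) ∣ t) →
      Plus F (-17) = Radicals F) ∧
    -- infinite extensions
    (∀ (F : IntermediateField ℚ ℂ) [NumberField F], Multiquadratic F →
      (∀ t ∈ Radicals F, 0 < t ∧ jacobiSym t 17 = 1) →
      ∃ K : IntermediateField ℚ ℂ, F ≤ K ∧ Multiquadratic K ∧ ¬ FiniteDimensional ℚ K ∧
        (∀ t ∈ Radicals K, 0 < t ∧ jacobiSym t 17 = 1) ∧
        ∀ (F' : IntermediateField ℚ ℂ) [NumberField F'], F ≤ F' → F' ≤ K → Same F F') ∧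
    (∃ K : IntermediateField ℚ ℂ, Multiquadratic K ∧ ¬ FiniteDimensional ℚ K ∧
      ∀ (F : IntermediateField ℚ ℂ) [NumberField F], F ≤ K → RankConjectureZero F) ∧
    -- all quadratic fields
    Tendsto (fun X : ℕ => (num (fun m => Trivial2 (quadratic m)) X : ℝ) / (num (fun _ => True) X : ℝ))
      atTop (𝓝 (c / 2)) ∧
    Tendsto (fun X : ℕ => (num Root X : ℝ) / (num (fun _ => True) X : ℝ)) atTop (𝓝 (1 / 2)) ∧
    0.4194 < c ∧ c < 0.4195 := by
  refine ⟨fun F _ hF => ?_, fun m hm => trivial_iff hm,
    fun F F' _ _ hle hF' h => same_of F F' hle hF' h, fun F _ hF m hm hmF => ?_,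
    fun F _ hF inf S hS d₀ hd => joint_law F hF inf S hS d₀ hd, fun F h => ?_,
    fun F _ hF h => ?_, ?_, Pool.Agent.H468.MF.dens_all fun d hd h1 => quad_triv hd h1,
    Pool.Agent.H468.MF.half_all, Pool.Agent.H743.X17.c2_bounds⟩
  · obtain ⟨D, hD, hcard, hL, h0, -⟩ := main F hF
    have e : Radicals F = (D : Set ℤ) := Set.ext fun m => (hD m).symm
    refine ⟨?_, ?_, ?_, converse F hF, _, hL, ?_⟩
    · rw [e]
      exact D.finite_toSet
    · rw [e, Set.ncard_coe_finset, hcard]
    · rw [triv_iff F hF]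
      exact ⟨fun h m hm => (trivial_iff hm.1).2 (h m hm), fun h m hm => (trivial_iff hm.1).1 (h m hm)⟩
    · rintro ⟨m, hm, hR⟩
      exact h0 ⟨m, (hD m).2 hm, hR⟩
  · obtain ⟨h1, h2, h3⟩ := sup_spec F hF hm hmF
    exact ⟨Pool.Agent.H468.MR.sup_le_Kinf hF m, Pool.Agent.H468.MR.sup_nf F m, h1, h2, h3⟩
  · ext t
    exact ⟨fun ht => ht.1, fun ht => ⟨ht, root_seventeen (h t ht).1 (h t ht).2⟩⟩
  · obtain ⟨K, h1, h2, h3, h4, h5⟩ := infinite F hF h
    refine ⟨K, h1, h2, h3, h4, fun F' _ hle hK => ?_⟩
    exact same_of F F' hle (hK.trans h2) fun n hn hn' =>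
      (trivial_iff hn.1).2 (h5 n (Pool.Agent.H468.MR.rad_mono hK hn) hn')
  · have hQ : NumberField (⊥ : IntermediateField ℚ ℂ) :=
      { to_charZero := inferInstance, to_finiteDimensional := inferInstance }
    have hrad : ∀ t ∈ Radicals (⊥ : IntermediateField ℚ ℂ), t = 1 := by
      obtain ⟨D, hD, hcard, -, -, -⟩ := main (⊥ : IntermediateField ℚ ℂ) bot_le
      rw [IntermediateField.finrank_bot] at hcard
      obtain ⟨a, ha⟩ := Finset.card_eq_one.1 hcard
      have h1 : (1 : ℤ) ∈ D := (hD 1).2 ⟨squarefree_one, 1, one_mem _, by simp⟩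
      intro t ht
      have h2 := (hD t).2 ht
      rw [ha, Finset.mem_singleton] at h1 h2
      rw [h2, h1]
    obtain ⟨K, -, h2, h3, -, h5⟩ := infinite (⊥ : IntermediateField ℚ ℂ) bot_le (fun t ht => by
      rw [hrad t ht]
      exact ⟨one_pos, jacobiSym.one_left 17⟩)
    refine ⟨K, h2, h3, fun F _ hK => ?_⟩
    refine converse F (hK.trans h2) ((triv_iff F (hK.trans h2)).2 fun n hn => ?_)
    by_cases h1 : n ∈ Radicals (⊥ : IntermediateField ℚ ℂ)
    · rw [hrad n h1]
      exact Pool.Agent.H468.MF.sys_one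
    · exact h5 n (Pool.Agent.H468.MR.rad_mono hK hn) h1

end Pool.Agent.Results.MP_32c55d_nt.EveryMultiquadraticFieldX17
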