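import Pool.Agent.H290.MQ14.Grp

/-!
# The rank conjecture for `X_0(14)` over real and imaginary multiquadratic fields

`E` is the modular curve `X_0(14) : y² + x y + y = x³ + 4 x - 6`, without complex multiplication and
with only one rational point of order two. The squarefree integers `D ≡ 1` modulo `4`, positive or
negative and prime to `7`, form a group modulo squares (`Family`, `tw`). For a subgroup `G`, finite or
infinite, let `K_G = ℚ(√M : M ∈ G)`; these fields are real or imaginary. Let `nA`, `nB` be the numbers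
of the prime divisors of `D` of type `A` (`2` is a square, `-7` is not) and `B` (`-7` is a square, `2`
is not).

The theorem:
* (a 2-converse over number fields) suppose that `nB M ≤ nA M` for all `M` in `G` and that for
  all `M ≠ 1` in `G` the twist `E_M` has finitely many rational points and `Ш(E_M/ℚ)[2] = 0`. Then for
  every number field `F ⊆ K_G` the `L`-function of `E/F` (the product over all places of `F`) is
  entire, its order of vanishing at `s = 1` is the rank of `E(F)`, and both are `0`;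
* (exact proportions) let `G` be finite and balanced: `nA M = nB M` for all `M` in `G`. Among the `D`
  with `|D| ≡ r` modulo `8` (`r = 1, 3, 5, 7`) such that all the twists `tw M D`, `M ∈ G`, are
  balanced, the proportion of those for which the condition holds for all `tw M D`, `M ∈ G`, is
  exactly `η ^ |G|`, `η = (1 - 1/2) (1 - 1/4) (1 - 1/8) ⋯`, and there are at least
  `c X / √(log log X)` such `D` with `|D| ≤ X`. These are the twists that are added when
  `K_G` is replaced by `K_G(√D)`, real or imaginary. So if `G` satisfies the condition then for a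
  proportion (lower density) at least `η ^ |G|` of these `D` the rank conjecture holds with
  both sides `0` for `E` over all the number fields in `K_G(√D)`;
* (infinite towers) every finite balanced group `G` with the condition is contained in an infinite
  one.

Proof. `L`-values, 2-descent and converse over `ℚ`: `Pool/Agent/H290/X14`; joint law:
`Pool/Agent/H290/X14J` and the library (`NH4/PJ`); the `L`-function over a number field:
`Pool/Graph/R_seed8/Y18/NF`, modified in `Pool/Agent/H290/MQ14/Lf`; the points over multiquadratic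
fields, the Euler factors at all places and the group structure: `Pool/Agent/H290/MQ14`. The case of
`X_0(15)`, real fields, is `MP_32c55d_nt/MultiquadraticX15` (helper468), whose structure is followed.
-/

set_option autoImplicit false

open NumberField IsDedekindDomain Filter Topology

namespace Pool.Agent.Results.MP_32c55d_nt.MultiquadraticX14

open Pool.Agent.TH841.SH.D (Sha)

/-- The elliptic curve `X_0(14)`, with its global minimal equation `y² + x y + y = x³ + 4 x - 6`; it is
semistable, so the equation is minimal at all the places of all number fields. -/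
def E : WeierstrassCurve ℤ := ⟨1, 0, 1, 4, -6⟩

/-- The curve given by the equation of `W` over the ring `R`. -/
abbrev base (W : WeierstrassCurve ℤ) (R : Type) [CommRing R] : WeierstrassCurve R :=
  W.map (Int.castRingHom R)

/-- The number of the affine points `(x, y)` over the ring `R`. -/
noncomputable def pts (W : WeierstrassCurve ℤ) (R : Type) [CommRing R] : ℕ :=
  Nat.card {P : R × R // (base W R).toAffine.Equation P.1 P.2}

section

variable {K : Type} [Field K] [NumberField K]

/-- `a_v = N v + 1 - #W(k_v)`, the points over the residue field `k_v` counted with the point at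
infinity. -/
noncomputable def a (W : WeierstrassCurve ℤ) (v : HeightOneSpectrum (𝓞 K)) : ℤ :=
  (Ideal.absNorm v.asIdeal : ℤ) - pts W (𝓞 K ⧸ v.asIdeal)

open Classical in
/-- The Euler factor of `L(W/K, s)` at `v` : `(1 - a_v N v^(-s) + N v^(1 - 2 s))⁻¹` if the
discriminant is a unit at `v`, and `(1 - a_v N v^(-s))⁻¹` otherwise. -/
noncomputable def factor (W : WeierstrassCurve ℤ) (s : ℂ) (v : HeightOneSpectrum (𝓞 K)) : ℂ :=
  (1 - (a W v : ℂ) * (Ideal.absNorm v.asIdeal : ℂ) ^ (-s) +
    if ((W.Δ : ℤ) : 𝓞 K) ∈ v.asIdeal then 0 else (Ideal.absNorm v.asIdeal : ℂ) ^ (1 - 2 * s))⁻¹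

end

/-- The rank conjecture holds for `E` over the number field `F ⊂ ℂ`, with both sides `0`: there is an
entire function `L` which for `Re s > 3/2` is the product of the Euler factors at all the places of `F`,
its order of vanishing at `s = 1` is the rank of `E(F)`, the rank is `0`, and `E(F)` is finite. -/
def RankConjectureZero (F : IntermediateField ℚ ℂ) [NumberField F] : Prop :=
  ∃ L : ℂ → ℂ, Differentiable ℂ L ∧
    (∀ s : ℂ, 3 / 2 < s.re → HasProd (factor (K := F) E s) (L s)) ∧
    analyticOrderAt L 1 = ((Module.finrank ℤ (base E F).toAffine.Point : ℕ) : ℕ∞) ∧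
    Module.finrank ℤ (base E F).toAffine.Point = 0 ∧ Finite (base E F).toAffine.Point

/-- `2` is a square modulo the odd prime `p` -/
def Two (p : ℕ) : Prop := p % 8 = 1 ∨ p % 8 = 7

/-- `-7` is a square modulo the odd prime `p ≠ 7` -/
def Sev (p : ℕ) : Prop := p % 7 = 1 ∨ p % 7 = 2 ∨ p % 7 = 4

open Classical in
/-- the number of the prime divisors of type `A` -/
noncomputable def nA (D : ℤ) : ℕ := (D.natAbs.primeFactors.filter fun p => Two p ∧ ¬ Sev p).card

open Classical in
/-- the number of the prime divisors of type `B` -/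
noncomputable def nB (D : ℤ) : ℕ := (D.natAbs.primeFactors.filter fun p => ¬ Two p ∧ Sev p).card

/-- the family: the squarefree integers `≡ 1` modulo `4`, prime to `7` -/
def Family (D : ℤ) : Prop := Squarefree D ∧ D % 4 = 1 ∧ ¬ (7 : ℤ) ∣ D

/-- the product modulo squares: the squarefree part of `M D`, for squarefree `M` and `D` -/
def tw (M D : ℤ) : ℤ := M * D / (Int.gcd M D : ℤ) ^ 2

/-- `G` is a subgroup of the family, for the multiplication modulo squares. -/
structure IsGroup (G : Set ℤ) : Prop where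
  one : 1 ∈ G
  family : ∀ M ∈ G, Family M
  mul : ∀ M ∈ G, ∀ N ∈ G, tw M N ∈ G

/-- The subfield `K_G = ℚ(√M : M ∈ G)` of `ℂ`. -/
noncomputable def multiquadratic (G : Set ℤ) : IntermediateField ℚ ℂ :=
  IntermediateField.adjoin ℚ {z : ℂ | ∃ M ∈ G, z ^ 2 = (M : ℂ)}

/-- The group generated by the group `G` and `D`. -/
def extend (G : Set ℤ) (D : ℤ) : Set ℤ := G ∪ {N | ∃ M ∈ G, N = tw M D}

/-- the minimal equation of the quadratic twist by `D ≡ 1` modulo `4` of `X_0(14)` -/
def Etw (D : ℤ) : WeierstrassCurve ℤ :=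
  ⟨1, (D - 1) / 4, 1, (9 * D ^ 2 - 1) / 2, -((23 * D ^ 3 + 1) / 4)⟩

/-- `E_D(ℚ)` is finite and `Ш(E_D/ℚ)` has no element of order two. -/
def RankZeroShaTwo (D : ℤ) : Prop :=
  Finite (base (Etw D) ℚ).toAffine.Point ∧ ∀ x : Sha (base (Etw D) ℚ), x + x = 0 → x = 0

/-- the discriminant `D = ± n ≡ 1` modulo `4` -/
def dsc (n : ℕ) : ℤ := if n % 4 = 1 then (n : ℤ) else -(n : ℤ)

/-- `D` is in the family and all the `tw M D`, `M ∈ T`, are balanced. -/
def Balanced (T : Finset ℤ) (D : ℤ) : Prop := Family D ∧ ∀ M ∈ T, nA (tw M D) = nB (tw M D)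

open Classical in
/-- the number of the `D` with `|D| ≤ X`, `|D| ≡ r` modulo `8`, such that all the `tw M D`, `M ∈ T`,
are balanced, and with the property `Q` -/
noncomputable def num (T : Finset ℤ) (Q : ℤ → Prop) (r X : ℕ) : ℕ :=
  ((Finset.Icc 1 X).filter fun n => Balanced T (dsc n) ∧ n % 8 = r ∧ Q (dsc n)).card

/-- the constant `(1 - 1/2) (1 - 1/4) (1 - 1/8) ⋯ = 0.2887...` -/
noncomputable def eta : ℝ := ∏' i : ℕ, (1 - (1 / 2 : ℝ) ^ (i + 1))

section proof

open Pool.Agent.H290.MQ14 (Crit rz_iff fam_tw crit_one lfun finite_base law num_atTop size'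
  num_mono tower ext_field ext_grp IsGrp Good)

lemma grp {G : Set ℤ} (hG : IsGroup G) : IsGrp G := ⟨hG.one, hG.family, hG.mul⟩

lemma conj_of {G : Set ℤ} (hG : IsGroup G) (hC : ∀ M ∈ G, Crit M)
    (F : IntermediateField ℚ ℂ) [NumberField F] (hF : F ≤ multiquadratic G) :
    RankConjectureZero F := by
  obtain ⟨L, h1, h2, h3⟩ := lfun (grp hG) hC F hF
  have hfin : Finite (base E F).toAffine.Point :=
    finite_base (grp hG) (fun M hM => (hC M hM).fin (hG.family M hM)) F hF
  have h0 : Module.finrank ℤ (base E F).toAffine.Point = 0 := by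
    apply Module.IsTorsion.finrank_eq_zero
    intro P
    refine ⟨⟨(Nat.card (base E F).toAffine.Point : ℤ), ?_⟩, ?_⟩
    · rw [mem_nonZeroDivisors_iff_ne_zero]
      exact_mod_cast Nat.card_pos.ne'
    · show (Nat.card (base E F).toAffine.Point : ℤ) • P = 0
      rw [natCast_zsmul]
      exact card_nsmul_eq_zero'
  refine ⟨L, h1, h2, ?_, h0, hfin⟩
  rw [h0]
  exact analyticOrderAt_eq_zero.2 (Or.inr h3)

lemma crit_of {G : Set ℤ} (hG : IsGroup G) (hc : ∀ M ∈ G, nB M ≤ nA M)
    (hC : ∀ M ∈ G, M ≠ 1 → RankZeroShaTwo M) : ∀ M ∈ G, Crit M := by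
  intro M hM
  by_cases h : M = 1
  · rw [h]
    exact crit_one
  · exact (rz_iff (hG.family M hM) (hc M hM)).1 (hC M hM h)

lemma ext_group {G : Set ℤ} (hG : IsGroup G) {D : ℤ} (hD : Family D) : IsGroup (extend G D) := by
  have h := ext_grp (grp hG) hD
  exact ⟨h.one, h.fam, h.mul⟩

lemma lower (G : Finset ℤ) (hG : IsGroup (G : Set ℤ)) (hb : ∀ M ∈ G, nA M = nB M)
    (hC : ∀ M ∈ G, M ≠ 1 → RankZeroShaTwo M) {r : ℕ} (hr : r = 1 ∨ r = 3 ∨ r = 5 ∨ r = 7)
    (δ : ℝ) (hδ : δ < eta ^ G.card) : ∀ᶠ X : ℕ in atTop, δ * (num G (fun _ => True) r X : ℝ) ≤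
      (num G (fun D => ∀ (F : IntermediateField ℚ ℂ) [NumberField F],
        F ≤ multiquadratic (extend G D) → RankConjectureZero F) r X : ℝ) := by
  have hne : G.Nonempty := ⟨1, hG.one⟩
  have h1 := (law (fun M hM => hG.family M hM) hne hb hr).eventually_const_lt hδ
  filter_upwards [h1, (num_atTop (fun M hM => hG.family M hM) hne hb hr).eventually_gt_atTop 0]
    with X hX h0
  rw [lt_div_iff₀ h0] at hX
  refine hX.le.trans ?_
  have h2 : Pool.Agent.H290.MQ14.num G (Good G) r X ≤
      Pool.Agent.H290.MQ14.num G (fun D => ∀ (F : IntermediateField ℚ ℂ) [NumberField F],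
        F ≤ multiquadratic (extend G D) → RankConjectureZero F) r X := by
    refine num_mono r X fun D hD h F _ hF => ?_
    refine conj_of (ext_group hG hD.1) ?_ F hF
    rintro N (hN | ⟨M, hM, rfl⟩)
    · exact crit_of hG (fun M hM => (hb M hM).ge) hC N hN
    · exact (rz_iff (fam_tw (hG.family M hM) hD.1) (hD.2 M hM).ge).1 (h M hM)
  exact_mod_cast h2

lemma towers (G : Finset ℤ) (hG : IsGroup (G : Set ℤ)) (hb : ∀ M ∈ G, nA M = nB M)
    (hC : ∀ M ∈ G, M ≠ 1 → RankZeroShaTwo M) :
    ∃ H : Set ℤ, (G : Set ℤ) ⊆ H ∧ H.Infinite ∧ IsGroup H ∧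
      ∀ M ∈ H, nA M = nB M ∧ RankZeroShaTwo M := by
  obtain ⟨H, h1, h2, h3, h4⟩ := tower (G := G)
    ⟨grp hG, crit_of hG (fun M hM => (hb M hM).ge) hC⟩
  exact ⟨H, h1, h2, ⟨h3.one, h3.fam, h3.mul⟩,
    fun M hM => ⟨(h4 M hM).1, (h4 M hM).rz (h3.fam M hM)⟩⟩

end proof

theorem result :
    (∀ G : Set ℤ, IsGroup G → (∀ M ∈ G, nB M ≤ nA M) → (∀ M ∈ G, M ≠ 1 → RankZeroShaTwo M) →
      ∀ (F : IntermediateField ℚ ℂ) [NumberField F], F ≤ multiquadratic G →
        RankConjectureZero F) ∧
    (∀ G : Finset ℤ, IsGroup (G : Set ℤ) → (∀ M ∈ G, nA M = nB M) →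
      ∀ r : ℕ, r = 1 ∨ r = 3 ∨ r = 5 ∨ r = 7 →
        Tendsto (fun X : ℕ => (num G (fun D => ∀ M ∈ G, RankZeroShaTwo (tw M D)) r X : ℝ) /
          (num G (fun _ => True) r X : ℝ)) atTop (𝓝 (eta ^ G.card)) ∧
        ∃ (c : ℝ) (X₀ : ℕ), 0 < c ∧ ∀ X : ℕ, X₀ ≤ X →
          c * X / √(Real.log (Real.log X)) ≤ (num G (fun _ => True) r X : ℝ)) ∧
    (∀ (G : Set ℤ) (D : ℤ), IsGroup G → Family D → IsGroup (extend G D) ∧
      multiquadratic (extend G D) =
        multiquadratic G ⊔ IntermediateField.adjoin ℚ {z : ℂ | z ^ 2 = (D : ℂ)}) ∧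
    (∀ G : Finset ℤ, IsGroup (G : Set ℤ) → (∀ M ∈ G, nA M = nB M) →
      (∀ M ∈ G, M ≠ 1 → RankZeroShaTwo M) → ∀ r : ℕ, r = 1 ∨ r = 3 ∨ r = 5 ∨ r = 7 →
      ∀ δ : ℝ, δ < eta ^ G.card → ∀ᶠ X : ℕ in atTop, δ * (num G (fun _ => True) r X : ℝ) ≤
        (num G (fun D => ∀ (F : IntermediateField ℚ ℂ) [NumberField F],
          F ≤ multiquadratic (extend G D) → RankConjectureZero F) r X : ℝ)) ∧
    (∀ G : Finset ℤ, IsGroup (G : Set ℤ) → (∀ M ∈ G, nA M = nB M) →
      (∀ M ∈ G, M ≠ 1 → RankZeroShaTwo M) →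
      ∃ H : Set ℤ, (G : Set ℤ) ⊆ H ∧ H.Infinite ∧ IsGroup H ∧
        ∀ M ∈ H, nA M = nB M ∧ RankZeroShaTwo M) ∧
    0.2887 < eta ∧ eta < 0.2888 :=
  ⟨fun _ hG hc hC F _ hF => conj_of hG (crit_of hG hc hC) F hF,
    fun _ hG hb _ hr => ⟨Pool.Agent.H290.MQ14.law (fun M hM => hG.family M hM) ⟨1, hG.one⟩ hb hr,
      Pool.Agent.H290.MQ14.size' (fun M hM => hG.family M hM) ⟨1, hG.one⟩ hb hr⟩,
    fun _ _ hG hD => ⟨ext_group hG hD, Pool.Agent.H290.MQ14.ext_field (grp hG) hD⟩,
    fun G hG hb hC _ hr => lower G hG hb hC hr, towers,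
    Pool.Agent.NH5.PR.t_ETA.2.2.2.1, Pool.Agent.NH5.PR.t_ETA.2.2.2.2⟩

end Pool.Agent.Results.MP_32c55d_nt.MultiquadraticX14
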