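import Pool.Agent.H454.QE.SbP
import Pool.Agent.H468.MQ.Grp
import Pool.Agent.H468.X15S.Top

/-!
# The rank conjecture for `X_0(15)` over the subfields of almost every multiquadratic field

`E` is the modular curve `X_0(15) : y² + x y + y = x³ + x² - 10 x - 10`.  For a finite set `P` of
primes `≥ 7`, let `twists P` be the group (for the multiplication modulo squares) of the products
`D ≡ 1, 49 mod 60` of subsets of `P`, and `K P = ℚ(√D : D ∈ twists P)`, a multiquadratic field of
degree `#(twists P) ≥ 2^m / 8`, where `m = #P`.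

In the known results on ranks over families of fields (quadratic, cyclic or multiquadratic fields ordered
by their discriminants or conductors) one averages over all the fields of the family.  Here
everything happens inside *one* field `K P`: the theorem says that for every `k` and `ε > 0`, if `m` is
large, then for almost all the sets `P` of `m` primes the following holds for the subfields `F` of `K P`
of degree `2^k`.  For a proportion `c ^ (2^k - 1)` of the `F`, up to `ε`, where
`c = (1 - 1/2) (1 - 1/4) (1 - 1/8) ⋯ = 0.2887...`, all the twists of `E` by the quadratic subfields of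
`F` have finitely many rational points and trivial `Ш[2]`; and for every such `F` the rank
conjecture holds for `E` over `F`, and over all the subfields of `F`, with both sides `0`: the
`L`-function, which is the product over all the places, is entire, its order of vanishing at `s = 1` is
the rank, and both are `0`.

Proof.  The `2^k - 1` twists which belong to a basis of the group of `F` are asymptotically
independent in almost every group `twists P`, see `Pool/Agent/H454/QE` (they are all functions of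
the `m (m - 1) / 2` symbols of the pairs of elements of `P`).  The subfields of degree `2^k` correspond to
the subgroups of order `2^k` (`QE/Fld`: the trace), and all of these have the same number of bases
(`QE/Spc`, `QE/Sbf`).  The 2-converse over number fields (from the twists to the `L`-function with all its
Euler factors and the points over `F`) is the one of helper468 (`Pool/Agent/H468/MQ`,
hand-in `MP_32c55d_nt.MultiquadraticX15`); `L`-values: `Pool/Graph/.../H757_X15`.
-/

set_option autoImplicit false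

open NumberField IsDedekindDomain Filter Topology

namespace Pool.Agent.Results.MP_32c55d_nt.SubfieldsOfAlmostEveryField

open Pool.Agent.TH841.SH.D (Sha)

/-- The elliptic curve `X_0(15)`, with its global minimal equation
`y² + x y + y = x³ + x² - 10 x - 10`. -/
def E : WeierstrassCurve ℤ := ⟨1, 1, 1, -10, -10⟩

/-- The curve given by the equation of `W` over the ring `R`. -/
abbrev base (W : WeierstrassCurve ℤ) (R : Type) [CommRing R] : WeierstrassCurve R :=
  W.map (Int.castRingHom R)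

/-- The number of the affine points `(x, y)` over the ring `R`. -/
noncomputable def pts (W : WeierstrassCurve ℤ) (R : Type) [CommRing R] : ℕ :=
  Nat.card {P : R × R // (base W R).toAffine.Equation P.1 P.2}

section

variable {K : Type} [Field K] [NumberField K]

/-- `a_v = N v + 1 - #W(k_v)`, the points over the residue field `k_v` counted with the point at
infinity. -/
noncomputable def a (W : WeierstrassCurve ℤ) (v : HeightOneSpectrum (𝓞 K)) : ℤ :=
  (Ideal.absNorm v.asIdeal : ℤ) - pts W (𝓞 K ⧸ v.asIdeal)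

open Classical in
/-- The Euler factor of `L(W/K, s)` at `v` : `(1 - a_v N v^(-s) + N v^(1 - 2 s))⁻¹` if the
discriminant is a unit at `v`, and `(1 - a_v N v^(-s))⁻¹` otherwise. -/
noncomputable def factor (W : WeierstrassCurve ℤ) (s : ℂ) (v : HeightOneSpectrum (𝓞 K)) : ℂ :=
  (1 - (a W v : ℂ) * (Ideal.absNorm v.asIdeal : ℂ) ^ (-s) +
    if ((W.Δ : ℤ) : 𝓞 K) ∈ v.asIdeal then 0 else (Ideal.absNorm v.asIdeal : ℂ) ^ (1 - 2 * s))⁻¹

end

/-- The rank conjecture holds for `E` over the number field `F ⊂ ℂ`, with both sides `0`: there is an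
entire function `L` which for `Re s > 3/2` is the product of the Euler factors at all the places of `F`,
its order of vanishing at `s = 1` is the rank of `E(F)`, the rank is `0`, and `E(F)` is finite. -/
def RankConjectureZero (F : IntermediateField ℚ ℂ) [NumberField F] : Prop :=
  ∃ L : ℂ → ℂ, Differentiable ℂ L ∧
    (∀ s : ℂ, 3 / 2 < s.re → HasProd (factor (K := F) E s) (L s)) ∧
    analyticOrderAt L 1 = ((Module.finrank ℤ (base E F).toAffine.Point : ℕ) : ℕ∞) ∧
    Module.finrank ℤ (base E F).toAffine.Point = 0 ∧ Finite (base E F).toAffine.Point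

/-- The rank conjecture holds for `E` over `F` and over all its subfields, with both sides `0`. -/
def RankConjectureBelow (F : IntermediateField ℚ ℂ) : Prop :=
  ∀ F' : IntermediateField ℚ ℂ, F' ≤ F → ∃ _ : NumberField F', RankConjectureZero F'

/-- the quadratic twist by `D` of `X_0(15)`, `y² = x³ - 12987 D² x - 263466 D³` -/
def Etw (D : ℕ) : WeierstrassCurve ℚ :=
  { a₁ := 0, a₂ := 0, a₃ := 0, a₄ := ((-12987 * (D : ℤ) ^ 2 : ℤ) : ℚ),
    a₆ := ((-263466 * (D : ℤ) ^ 3 : ℤ) : ℚ) }

/-- `E_D(ℚ)` is finite and `Ш(E_D/ℚ)` has no element of order two. -/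
def RankZeroShaTwo (D : ℕ) : Prop :=
  Finite (Etw D).toAffine.Point ∧ ∀ x : Sha (Etw D), x + x = 0 → x = 0

/-- For all the quadratic subfields `ℚ(√D)` of `F` (`D ≡ 1` or `49` modulo `60` squarefree) the
twist by `D` has finitely many rational points and trivial `Ш[2]`. -/
def AllTwists (F : IntermediateField ℚ ℂ) : Prop :=
  ∀ D : ℕ, Squarefree D → (D % 60 = 1 ∨ D % 60 = 49) → D ≠ 1 → (∃ z ∈ F, z ^ 2 = (D : ℂ)) →
    RankZeroShaTwo D

/-- the constant `(1 - 1/2) (1 - 1/4) (1 - 1/8) ⋯ = 0.2887...` -/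
noncomputable def c : ℝ := ∏' i : ℕ, (1 - (1 / 2 : ℝ) ^ (i + 1))

/-- The products `D` of the subsets of `P` with `D ≡ 1` or `49` modulo `60`. -/
def twists (P : Finset ℕ) : Finset ℕ :=
  (P.powerset.image fun S => ∏ p ∈ S, p).filter fun D => D % 60 = 1 ∨ D % 60 = 49

/-- The field `K P = ℚ(√D : D ∈ twists P)`. -/
noncomputable def K (P : Finset ℕ) : IntermediateField ℚ ℂ :=
  IntermediateField.adjoin ℚ {z : ℂ | ∃ D ∈ twists P, z ^ 2 = (D : ℂ)}

/-- The subfields of `K P` of degree `2 ^ k`. -/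
def subfields (k : ℕ) (P : Finset ℕ) : Set (IntermediateField ℚ ℂ) :=
  {F | F ≤ K P ∧ Module.finrank ℚ F = 2 ^ k}

/-- The sets of `m` primes between `7` and `X`. -/
def primeSets (m X : ℕ) : Finset (Finset ℕ) := ((Finset.Icc 7 X).filter Nat.Prime).powersetCard m

section proof

open Pool.Agent.H757_X15.DD (Fm Crit c1 t_LA1)
open Pool.Agent.H468.MQ
open Pool.Agent.H454.QB (grp Pr)
open Pool.Agent.H454.QD (twF)
open Pool.Agent.H454.QE (Exc3 HF P_grp card_all_P fields_P sub_finite subfield_eq mem_of_rt rt_mem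
  KG_degree HF_grp nb)
open Pool.Agent.H468.X15.DX (Family)

lemma c_bounds : 0.2887 < c ∧ c < 0.2888 := t_LA1.2.2.2

lemma sel_iff {D : ℕ} (hD : Family D) (h1 : D ≠ 1) : RankZeroShaTwo D ↔ Crit D :=
  Pool.Agent.H468.X15.sha_iff_crit (Pool.Agent.H468.X15.mod_short hD.1.ne_zero _ _ rfl rfl)
    hD.1 hD.2 h1 fun hC => Pool.Agent.Y687.finite_pt_of_set
      (Pool.Agent.H468.X15.finite_set hD.1 hD.2 hC h1)

lemma mem_twists {P : Finset ℕ} {D : ℕ} : D ∈ twists P ↔ D ∈ grp P ∧ Fm D := by
  unfold twists grp Fm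
  rw [Finset.mem_filter]

lemma twists_eq (P : Finset ℕ) : twists P = twF P := by
  classical
  ext D
  rw [mem_twists]
  unfold Pool.Agent.H454.QD.twF
  rw [Finset.mem_filter]

lemma primeSets_eq (m X : ℕ) : primeSets m X = (Pr X).powersetCard m := by
  unfold primeSets
  congr 1
  ext p
  rw [Pool.Agent.H454.QB.mem_Pr, Finset.mem_filter, Finset.mem_Icc]
  constructor
  · rintro ⟨⟨h1, h2⟩, h3⟩; exact ⟨h2, h3, h1⟩
  · rintro ⟨h1, h2, h3⟩; exact ⟨⟨h3, h1⟩, h2⟩

lemma twists_large {P : Finset ℕ} (hP : ∀ p ∈ P, p.Prime ∧ 7 ≤ p) :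
    2 ^ P.card ≤ 8 * (twists P).card := by
  rw [twists_eq]
  exact Pool.Agent.H454.QB.fam_large hP

lemma K_eq (P : Finset ℕ) : K P = KG ((twF P : Finset ℕ) : Set ℕ) := by
  unfold K KG
  rw [twists_eq]
  rfl

lemma grp_tw {P : Finset ℕ} (hP : ∀ p ∈ P, p.Prime ∧ 7 ≤ p) : IsGrp ((twists P : Finset ℕ) : Set ℕ) := by
  rw [twists_eq]
  exact P_grp hP

lemma nf_of {P : Finset ℕ} (hP : ∀ p ∈ P, p.Prime ∧ 7 ≤ p) {F : IntermediateField ℚ ℂ}
    (hF : F ≤ K P) : NumberField F := by
  rw [K_eq] at hF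
  have := Pool.Agent.H454.QE.KG_fin (P_grp hP) (Finset.finite_toSet _)
  have : FiniteDimensional ℚ F :=
    FiniteDimensional.of_injective (IntermediateField.inclusion hF).toLinearMap
      (IntermediateField.inclusion hF).injective
  exact { to_charZero := inferInstance, to_finiteDimensional := inferInstance }

/-- the condition on the twists, on the group of `F` -/
lemma all_iff {P : Finset ℕ} (hP : ∀ p ∈ P, p.Prime ∧ 7 ≤ p) {F : IntermediateField ℚ ℂ}
    (hF : F ≤ K P) : AllTwists F ↔ ∀ D ∈ HF (twF P) F, D ≠ 1 → RankZeroShaTwo D := by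
  classical
  rw [K_eq] at hF
  constructor
  · intro h D hD h1
    unfold Pool.Agent.H454.QE.HF at hD
    obtain ⟨h2, h3⟩ := Finset.mem_filter.1 hD
    have h4 := (P_grp hP).fam D h2
    exact h D h4.1 h4.2 h1 ⟨_, h3, rt_sq D⟩
  · intro h D hS hD h1 ⟨z, hz, hzD⟩
    have h2 : rt D ∈ F := by
      rcases sq_eq_sq_iff_eq_or_eq_neg.1 ((rt_sq D).trans hzD.symm) with h3 | h3
      · rw [h3]; exact hz
      · rw [h3]; exact neg_mem hz
    refine h D ?_ h1
    unfold Pool.Agent.H454.QE.HF
    exact Finset.mem_filter.2 ⟨mem_of_rt (P_grp hP) ⟨hS, hD⟩ (hF h2), h2⟩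

lemma below_of {P : Finset ℕ} (hP : ∀ p ∈ P, p.Prime ∧ 7 ≤ p) {F : IntermediateField ℚ ℂ}
    (hF : F ≤ K P) (h : AllTwists F) : RankConjectureBelow F := by
  intro F' hF'
  have := nf_of hP (hF'.trans hF)
  refine ⟨inferInstance, ?_⟩
  have h1 := (all_iff hP hF).1 h
  rw [K_eq] at hF
  have hG := HF_grp (P_grp hP) F
  have hC : ∀ M ∈ ((HF (twF P) F : Finset ℕ) : Set ℕ), M = 1 ∨ Crit M := by
    intro M hM
    by_cases h2 : M = 1
    · exact Or.inl h2
    · exact Or.inr ((sel_iff (hG.fam M hM) h2).1 (h1 M hM h2))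
  have hFG : F' ≤ KG ((HF (twF P) F : Finset ℕ) : Set ℕ) := by
    rw [← subfield_eq (P_grp hP) hF]
    exact hF'
  obtain ⟨L, h3, h4, h5⟩ := lfun hG hC F' hFG
  have hfin : Finite (base E F').toAffine.Point := finite_base hG hC F' hFG
  have h0 : Module.finrank ℤ (base E F').toAffine.Point = 0 := by
    apply Module.IsTorsion.finrank_eq_zero
    intro Q
    refine ⟨⟨(Nat.card (base E F').toAffine.Point : ℤ), ?_⟩, ?_⟩
    · rw [mem_nonZeroDivisors_iff_ne_zero]
      exact_mod_cast Nat.card_pos.ne'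
    · show (Nat.card (base E F').toAffine.Point : ℤ) • Q = 0
      rw [natCast_zsmul]
      exact card_nsmul_eq_zero'
  refine ⟨L, h3, h4, ?_, h0, hfin⟩
  rw [h0]
  exact analyticOrderAt_eq_zero.2 (Or.inr h5)

lemma law_P {P : Finset ℕ} (hP : ∀ p ∈ P, p.Prime ∧ 7 ≤ p) {k : ℕ} {δ ε : ℝ} (hδ : 0 < δ)
    (hδε : 8 * δ ≤ ε) (hδ2 : δ ≤ 1 / 2) (h : ¬ Exc3 (Fin k) δ P)
    (hN : 2 ^ k ≤ δ * ((twF P).card : ℝ)) :
    |(({F ∈ subfields k P | AllTwists F}.ncard : ℕ) : ℝ) -
      c ^ (2 ^ k - 1) * ((subfields k P).ncard : ℕ)| ≤ ε * ((subfields k P).ncard : ℕ) := by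
  have hG : ∀ D ∈ twF P, D ≠ 1 → (RankZeroShaTwo D ↔ Crit D) :=
    fun D hD h1 => sel_iff ((P_grp hP).fam D hD) h1
  have h1 := fields_P (Gp := RankZeroShaTwo) hP hG hδ hδε hδ2 h hN
  have hc : c1 = c := rfl
  have e1 : subfields k P = {F : IntermediateField ℚ ℂ | F ≤ KG ((twF P : Finset ℕ) : Set ℕ) ∧
      Module.finrank ℚ F = 2 ^ k} := by
    unfold subfields
    rw [K_eq]
  have e2 : {F ∈ subfields k P | AllTwists F} = {F : IntermediateField ℚ ℂ |
      F ≤ KG ((twF P : Finset ℕ) : Set ℕ) ∧ Module.finrank ℚ F = 2 ^ k ∧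
        ∀ D ∈ HF (twF P) F, D ≠ 1 → RankZeroShaTwo D} := by
    ext F
    constructor
    · rintro ⟨⟨h2, h3⟩, h4⟩
      exact ⟨by rw [← K_eq]; exact h2, h3, (all_iff hP h2).1 h4⟩
    · rintro ⟨h2, h3, h4⟩
      have h5 : F ≤ K P := by rw [K_eq]; exact h2
      exact ⟨⟨h5, h3⟩, (all_iff hP h5).2 h4⟩
  rw [e2, e1, ← hc]
  exact h1

lemma prime_of {m X : ℕ} {P : Finset ℕ} (hP : P ∈ primeSets m X) :
    (∀ p ∈ P, p.Prime ∧ 7 ≤ p) ∧ P.card = m := by
  unfold primeSets at hP
  obtain ⟨h1, h2⟩ := Finset.mem_powersetCard.1 hP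
  refine ⟨fun p hp => ?_, h2⟩
  have h3 := Finset.mem_filter.1 (h1 hp)
  exact ⟨h3.2, (Finset.mem_Icc.1 h3.1).1⟩

open Classical in
lemma law (k : ℕ) (ε : ℝ) (hε : 0 < ε) : ∃ m₀ : ℕ, ∀ m : ℕ, m₀ ≤ m → ∀ᶠ X : ℕ in atTop,
    (((primeSets m X).filter fun P =>
      ¬ |(({F ∈ subfields k P | AllTwists F}.ncard : ℕ) : ℝ) -
        c ^ (2 ^ k - 1) * ((subfields k P).ncard : ℕ)| ≤ ε * ((subfields k P).ncard : ℕ)).card : ℝ) ≤
      ε * (primeSets m X).card := by
  set δ : ℝ := min (ε / 8) (1 / 2) with hδ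
  have hδ0 : 0 < δ := lt_min (by positivity) (by norm_num)
  have hδ1 : 8 * δ ≤ ε := by
    have := min_le_left (ε / 8) (1 / 2 : ℝ)
    linarith
  have hδ2 : δ ≤ 1 / 2 := min_le_right _ _
  obtain ⟨m0, hm0⟩ := Pool.Agent.H454.QE.sets3 (Fin k) δ ε hδ0 hε
  obtain ⟨m1, hm1⟩ := pow_unbounded_of_one_lt (8 * 2 ^ k / δ : ℝ) (one_lt_two)
  refine ⟨max m0 m1, fun m hm => ?_⟩
  filter_upwards [hm0 m ((le_max_left _ _).trans hm)] with X hX
  rw [primeSets_eq]
  refine le_trans ?_ hX
  have hsub : ((Pr X).powersetCard m).filter (fun P =>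
      ¬ |(({F ∈ subfields k P | AllTwists F}.ncard : ℕ) : ℝ) -
        c ^ (2 ^ k - 1) * ((subfields k P).ncard : ℕ)| ≤ ε * ((subfields k P).ncard : ℕ)) ⊆
      ((Pr X).powersetCard m).filter fun P => Exc3 (Fin k) δ P := by
    intro P hP
    obtain ⟨h1, h2⟩ := Finset.mem_filter.1 hP
    refine Finset.mem_filter.2 ⟨h1, ?_⟩
    by_contra h3
    apply h2
    rw [← primeSets_eq] at h1
    obtain ⟨hPp, hPc⟩ := prime_of h1
    refine law_P hPp hδ0 hδ1 hδ2 h3 ?_
    have h4 : ((2 ^ P.card : ℕ) : ℝ) ≤ ((8 * (twists P).card : ℕ) : ℝ) := by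
      exact_mod_cast twists_large hPp
    push_cast at h4
    rw [hPc] at h4
    have h5 : (2 : ℝ) ^ m1 ≤ 2 ^ m := pow_le_pow_right₀ (by norm_num) ((le_max_right _ _).trans hm)
    have h6 : 8 * 2 ^ k / δ ≤ 8 * ((twists P).card : ℝ) := (hm1.le.trans h5).trans h4
    rw [div_le_iff₀ hδ0, twists_eq] at h6
    linarith
  exact_mod_cast Finset.card_le_card hsub

lemma fin_sub {P : Finset ℕ} (hP : ∀ p ∈ P, p.Prime ∧ 7 ≤ p) (k : ℕ) : (subfields k P).Finite := by
  refine (sub_finite (P_grp hP)).subset ?_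
  rintro F ⟨hF, -⟩
  rw [K_eq] at hF
  exact hF

lemma deg {P : Finset ℕ} (hP : ∀ p ∈ P, p.Prime ∧ 7 ≤ p) :
    Module.finrank ℚ (K P) = (twists P).card := by
  rw [K_eq, twists_eq]
  exact KG_degree (P_grp hP)

lemma count {P : Finset ℕ} (hP : ∀ p ∈ P, p.Prime ∧ 7 ≤ p) (k : ℕ) :
    (∏ i : Fin k, (2 ^ k - 2 ^ (i : ℕ))) * (subfields k P).ncard =
      ∏ i : Fin k, ((twists P).card - 2 ^ (i : ℕ)) := by
  have h1 := card_all_P hP k
  rw [twists_eq]
  unfold nb at h1
  rw [← h1]
  congr 1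
  unfold subfields
  rw [K_eq]
  rfl

lemma below_le {P : Finset ℕ} (hP : ∀ p ∈ P, p.Prime ∧ 7 ≤ p) (k : ℕ) :
    {F ∈ subfields k P | AllTwists F}.ncard ≤
      {F ∈ subfields k P | RankConjectureBelow F}.ncard := by
  refine Set.ncard_le_ncard ?_ ((fin_sub hP k).subset fun F hF => hF.1)
  rintro F ⟨hF1, hF2⟩
  exact ⟨hF1, below_of hP hF1.1 hF2⟩

end proof

open Classical in
/-- **The theorem.**  For every finite set `P` of primes `≥ 7`:
* `K P` has degree `#(twists P) ≥ 2 ^ #P / 8`, and the number of its subfields of degree `2 ^ k` is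
  `∏ (#(twists P) - 2 ^ i) / ∏ (2 ^ k - 2 ^ i)`, `i < k`;
* `AllTwists F` implies the rank conjecture for `E` over `F` and over all the subfields of `F`, with
  both sides `0`, for all the subfields `F` of `K P`.
For every `k`, every `ε > 0` and every large `m`, for all large `X`, all but a proportion at most `ε` of
the sets `P` of `m` primes between `7` and `X` have the following property: the number of the
subfields `F` of `K P` of degree `2 ^ k` with `AllTwists F` is `c ^ (2 ^ k - 1)` times the number of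
all the subfields of degree `2 ^ k`, up to `ε` times this number; and the rank conjecture holds for `E`
over `F` and its subfields, with both sides `0`, for a proportion at least `c ^ (2 ^ k - 1) - ε` of
these `F`. -/
theorem result :
    (0.2887 < c ∧ c < 0.2888) ∧
    (∀ P : Finset ℕ, (∀ p ∈ P, p.Prime ∧ 7 ≤ p) →
      2 ^ P.card ≤ 8 * (twists P).card ∧ Module.finrank ℚ (K P) = (twists P).card ∧
      (∀ k : ℕ, (subfields k P).Finite ∧
        (∏ i : Fin k, (2 ^ k - 2 ^ (i : ℕ))) * (subfields k P).ncard =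
          ∏ i : Fin k, ((twists P).card - 2 ^ (i : ℕ))) ∧
      (∀ F : IntermediateField ℚ ℂ, F ≤ K P → AllTwists F → RankConjectureBelow F)) ∧
    (∀ (k : ℕ) (ε : ℝ), 0 < ε → ∃ m₀ : ℕ, ∀ m : ℕ, m₀ ≤ m → ∀ᶠ X : ℕ in atTop,
      (((primeSets m X).filter fun P =>
        ¬ (|({F ∈ subfields k P | AllTwists F}.ncard : ℝ) -
            c ^ (2 ^ k - 1) * (subfields k P).ncard| ≤ ε * (subfields k P).ncard ∧
          (c ^ (2 ^ k - 1) - ε) * (subfields k P).ncard ≤
            ({F ∈ subfields k P | RankConjectureBelow F}.ncard : ℝ))).card : ℝ) ≤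
        ε * (primeSets m X).card) := by
  refine ⟨c_bounds, fun P hP => ⟨twists_large hP, deg hP, fun k => ⟨fin_sub hP k, count hP k⟩,
    fun F hF h => below_of hP hF h⟩, fun k ε hε => ?_⟩
  obtain ⟨m0, hm0⟩ := law k ε hε
  refine ⟨m0, fun m hm => ?_⟩
  filter_upwards [hm0 m hm] with X hX
  refine le_trans ?_ hX
  have hsub : (primeSets m X).filter (fun P =>
      ¬ (|({F ∈ subfields k P | AllTwists F}.ncard : ℝ) -
          c ^ (2 ^ k - 1) * (subfields k P).ncard| ≤ ε * (subfields k P).ncard ∧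
        (c ^ (2 ^ k - 1) - ε) * (subfields k P).ncard ≤
          ({F ∈ subfields k P | RankConjectureBelow F}.ncard : ℝ))) ⊆
      (primeSets m X).filter fun P =>
      ¬ |({F ∈ subfields k P | AllTwists F}.ncard : ℝ) -
          c ^ (2 ^ k - 1) * (subfields k P).ncard| ≤ ε * (subfields k P).ncard := by
    intro P hP
    obtain ⟨h1, h2⟩ := Finset.mem_filter.1 hP
    refine Finset.mem_filter.2 ⟨h1, fun h3 => h2 ⟨h3, ?_⟩⟩
    have h5 : (({F ∈ subfields k P | AllTwists F}.ncard : ℕ) : ℝ) ≤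
        (({F ∈ subfields k P | RankConjectureBelow F}.ncard : ℕ) : ℝ) := by
      exact_mod_cast below_le (prime_of h1).1 k
    have h6 := (abs_le.1 h3).1
    linarith
  exact_mod_cast Finset.card_le_card hsub

end Pool.Agent.Results.MP_32c55d_nt.SubfieldsOfAlmostEveryField
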